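import Mathlib

set_option autoImplicit false
set_option linter.unusedSectionVars false
open FourierTransform MeasureTheory
open scoped SchwartzMap ENNReal

namespace Pool.Agent.H96

section PartialPlancherel
variable {A C V : Type*}
  [NormedAddCommGroup A] [InnerProductSpace ℝ A] [FiniteDimensional ℝ A] [MeasurableSpace A]
  [BorelSpace A]
  [NormedAddCommGroup C] [InnerProductSpace ℝ C] [FiniteDimensional ℝ C] [MeasurableSpace C]
  [BorelSpace C]
  [NormedAddCommGroup V] [InnerProductSpace ℝ V] [FiniteDimensional ℝ V] [MeasurableSpace V]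
  [BorelSpace V]

/-- The combination map `A → C → V` coming from an isometry of the `L²` product with `V`. -/
noncomputable def cmb (L : WithLp 2 (A × C) ≃ₗᵢ[ℝ] V) (a : A) (c : C) : V := L (WithLp.toLp 2 (a, c))

variable (L : WithLp 2 (A × C) ≃ₗᵢ[ℝ] V)

lemma cmb_measurePreserving :
    MeasurePreserving (fun p : A × C => cmb L p.1 p.2) (volume : Measure (A × C)) volume :=
  L.measurePreserving.comp (WithLp.volume_preserving_toLp A C)

/-- The combination map as a measurable equivalence. -/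
noncomputable def cmbEquiv : A × C ≃ᵐ V :=
  (MeasurableEquiv.toLp 2 (A × C)).trans L.toMeasurableEquiv

lemma cmbEquiv_apply (p : A × C) : cmbEquiv L p = cmb L p.1 p.2 := rfl

lemma cmb_measurableEmbedding : MeasurableEmbedding (fun p : A × C => cmb L p.1 p.2) :=
  (cmbEquiv L).measurableEmbedding

lemma continuous_cmb : Continuous (fun p : A × C => cmb L p.1 p.2) := by
  unfold cmb
  exact L.continuous.comp (WithLp.prod_continuous_toLp 2 A C)

lemma norm_cmb_sq (a : A) (c : C) : ‖cmb L a c‖ ^ 2 = ‖a‖ ^ 2 + ‖c‖ ^ 2 := by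
  unfold cmb
  rw [L.norm_map, WithLp.prod_norm_sq_eq_of_L2]
  rfl

lemma inner_cmb (a a' : A) (c c' : C) :
    inner ℝ (cmb L a c) (cmb L a' c') = inner ℝ a a' + inner ℝ c c' := by
  unfold cmb
  rw [L.inner_map_map, WithLp.prod_inner_apply]

lemma norm_fst_le (a : A) (c : C) : ‖a‖ ≤ ‖cmb L a c‖ := by
  have h := norm_cmb_sq L a c
  nlinarith [norm_nonneg a, norm_nonneg c, norm_nonneg (cmb L a c), sq_nonneg ‖c‖]

lemma norm_snd_le (a : A) (c : C) : ‖c‖ ≤ ‖cmb L a c‖ := by
  have h := norm_cmb_sq L a c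
  nlinarith [norm_nonneg a, norm_nonneg c, norm_nonneg (cmb L a c), sq_nonneg ‖a‖]

lemma cmb_sub_fst (a a' : A) (c : C) : cmb L a c - cmb L a' c = cmb L (a - a') 0 := by
  unfold cmb
  rw [← map_sub]
  congr 1
  rw [← WithLp.toLp_sub]
  simp

lemma cmb_sub_snd (a : A) (c c' : C) : cmb L a c - cmb L a c' = cmb L 0 (c - c') := by
  unfold cmb
  rw [← map_sub]
  congr 1
  rw [← WithLp.toLp_sub]
  simp

lemma isometry_fst (c : C) : Isometry (fun a : A => cmb L a c) := by
  refine Isometry.of_dist_eq fun a a' => ?_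
  rw [dist_eq_norm, dist_eq_norm, cmb_sub_fst]
  have h := norm_cmb_sq L (a - a') 0
  simp only [norm_zero, ne_eq, OfNat.ofNat_ne_zero, not_false_eq_true, zero_pow, add_zero] at h
  exact (sq_eq_sq₀ (norm_nonneg _) (norm_nonneg _)).1 h

lemma isometry_snd (a : A) : Isometry (fun c : C => cmb L a c) := by
  refine Isometry.of_dist_eq fun c c' => ?_
  rw [dist_eq_norm, dist_eq_norm, cmb_sub_snd]
  have h := norm_cmb_sq L (0 : A) (c - c')
  simp only [norm_zero, ne_eq, OfNat.ofNat_ne_zero, not_false_eq_true, zero_pow, zero_add] at h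
  exact (sq_eq_sq₀ (norm_nonneg _) (norm_nonneg _)).1 h

lemma cmb_add (a a' : A) (c c' : C) : cmb L (a + a') (c + c') = cmb L a c + cmb L a' c' := by
  unfold cmb
  rw [← map_add]
  congr 1

lemma cmb_smul (r : ℝ) (a : A) (c : C) : cmb L (r • a) (r • c) = r • cmb L a c := by
  unfold cmb
  rw [← map_smul]
  congr 1

/-- `a ↦ cmb a 0` as a continuous linear map. -/
noncomputable def cmbL1 : A →L[ℝ] V :=
  LinearMap.toContinuousLinearMap
    { toFun := fun a => cmb L a 0
      map_add' := fun a a' => by simpa using cmb_add L a a' 0 0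
      map_smul' := fun r a => by simpa using cmb_smul L r a 0 }

/-- `c ↦ cmb 0 c` as a continuous linear map. -/
noncomputable def cmbL2 : C →L[ℝ] V :=
  LinearMap.toContinuousLinearMap
    { toFun := fun c => cmb L 0 c
      map_add' := fun c c' => by simpa using cmb_add L 0 0 c c'
      map_smul' := fun r c => by simpa using cmb_smul L r 0 c }

lemma temperate_fst (c : C) : Function.HasTemperateGrowth (fun a : A => cmb L a c) := by
  have h : (fun a : A => cmb L a c) = (fun a : A => cmbL1 L a + cmb L 0 c) := by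
    funext a
    have := cmb_add L a 0 0 c
    simpa [cmbL1] using this
  rw [h]
  exact (cmbL1 L).hasTemperateGrowth.add (Function.HasTemperateGrowth.const _)

lemma temperate_snd (a : A) : Function.HasTemperateGrowth (fun c : C => cmb L a c) := by
  have h : (fun c : C => cmb L a c) = (fun c : C => cmbL2 L c + cmb L a 0) := by
    funext c
    have := cmb_add L 0 a c 0
    simpa [cmbL2] using this
  rw [h]
  exact (cmbL2 L).hasTemperateGrowth.add (Function.HasTemperateGrowth.const _)

/-- The slice of a Schwartz function in the first variable. -/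
noncomputable def slice1 (f : 𝓢(V, ℂ)) (c : C) : 𝓢(A, ℂ) :=
  SchwartzMap.compCLMOfAntilipschitz ℂ (temperate_fst L c) (isometry_fst L c).antilipschitz f

/-- The slice of a Schwartz function in the second variable. -/
noncomputable def slice2 (f : 𝓢(V, ℂ)) (a : A) : 𝓢(C, ℂ) :=
  SchwartzMap.compCLMOfAntilipschitz ℂ (temperate_snd L a) (isometry_snd L a).antilipschitz f

@[simp] lemma slice1_apply (f : 𝓢(V, ℂ)) (c : C) (a : A) : slice1 L f c a = f (cmb L a c) := rfl
@[simp] lemma slice2_apply (f : 𝓢(V, ℂ)) (c : C) (a : A) : slice2 L f a c = f (cmb L a c) := rfl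

lemma coe_slice1 (f : 𝓢(V, ℂ)) (c : C) : (slice1 L f c : A → ℂ) = fun a => f (cmb L a c) := rfl
lemma coe_slice2 (f : 𝓢(V, ℂ)) (a : A) : (slice2 L f a : C → ℂ) = fun c => f (cmb L a c) := rfl

/-- Decay of a Schwartz function in the two blocks of variables. -/
lemma decay_cmb (f : 𝓢(V, ℂ)) (m n : ℕ) : ∃ K : ℝ, 0 ≤ K ∧ ∀ (a : A) (c : C),
    ‖f (cmb L a c)‖ ≤ K * ((1 + ‖a‖) ^ (-(m : ℝ)) * (1 + ‖c‖) ^ (-(n : ℝ))) := by
  obtain ⟨K, hK⟩ : ∃ K : ℝ, ∀ x : V, (1 + ‖x‖) ^ (m + n) * ‖f x‖ ≤ K := by
    refine ⟨2 ^ (m + n) * ((Finset.Iic (m + n, 0)).sup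
      fun k => SchwartzMap.seminorm ℝ k.1 k.2) f, fun x => ?_⟩
    have := SchwartzMap.one_add_le_sup_seminorm_apply (𝕜 := ℝ) (m := (m + n, 0)) (k := m + n)
      (n := 0) le_rfl le_rfl f x
    simpa using this
  refine ⟨K, le_trans (by positivity) (hK 0), fun a c => ?_⟩
  have h1 := hK (cmb L a c)
  have ha := norm_fst_le L a c
  have hc := norm_snd_le L a c
  have hpa : (0 : ℝ) < 1 + ‖a‖ := by positivity
  have hpc : (0 : ℝ) < 1 + ‖c‖ := by positivity
  have h2 : (1 + ‖a‖) ^ m * (1 + ‖c‖) ^ n ≤ (1 + ‖cmb L a c‖) ^ (m + n) := by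
    rw [pow_add]
    gcongr
  have h3 : (1 + ‖a‖) ^ m * (1 + ‖c‖) ^ n * ‖f (cmb L a c)‖ ≤ K :=
    le_trans (mul_le_mul_of_nonneg_right h2 (norm_nonneg _)) h1
  rw [Real.rpow_neg hpa.le, Real.rpow_neg hpc.le, Real.rpow_natCast, Real.rpow_natCast,
    ← mul_inv, ← div_eq_mul_inv, le_div_iff₀ (by positivity)]
  linarith [mul_comm ((1 + ‖a‖) ^ m * (1 + ‖c‖) ^ n) ‖f (cmb L a c)‖]

/-- The partial Fourier transform in the first variable. -/
noncomputable def pF (f : 𝓢(V, ℂ)) (k : A) (c : C) : ℂ := 𝓕 (fun a : A => f (cmb L a c)) k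

lemma pF_eq_fourier_slice (f : 𝓢(V, ℂ)) (k : A) (c : C) : pF L f k c = 𝓕 (slice1 L f c) k := rfl

lemma pF_eq (f : 𝓢(V, ℂ)) (k : A) (c : C) :
    pF L f k c = ∫ a : A, Real.fourierChar (-inner ℝ a k) • f (cmb L a c) := by
  unfold pF
  rw [Real.fourier_eq]

lemma continuous_pF (f : 𝓢(V, ℂ)) : Continuous (fun p : A × C => pF L f p.1 p.2) := by
  simp_rw [pF_eq]
  obtain ⟨K, hK0, hK⟩ := decay_cmb L f (Module.finrank ℝ A + 1) 0
  have hint : Integrable (fun a : A => K * (1 + ‖a‖) ^ (-((Module.finrank ℝ A + 1 : ℕ) : ℝ))) := by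
    apply Integrable.const_mul
    apply integrable_one_add_norm
    push_cast
    linarith
  refine continuous_of_dominated (bound := fun a => K * (1 + ‖a‖) ^
    (-((Module.finrank ℝ A + 1 : ℕ) : ℝ))) ?_ ?_ hint ?_
  · intro p
    apply Continuous.aestronglyMeasurable
    have h1 : Continuous fun a : A => f (cmb L a p.2) := (slice1 L f p.2).continuous
    have h2 : Continuous fun a : A => Real.fourierChar (-inner ℝ a p.1) :=
      Real.continuous_fourierChar.comp (by fun_prop)
    exact h2.smul h1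
  · intro p
    filter_upwards with a
    rw [Circle.norm_smul]
    have := hK a p.2
    simpa using this
  · filter_upwards with a
    have h1 : Continuous fun p : A × C => f (cmb L a p.2) :=
      (slice2 L f a).continuous.comp continuous_snd
    have h2 : Continuous fun p : A × C => Real.fourierChar (-inner ℝ a p.1) :=
      Real.continuous_fourierChar.comp (by fun_prop)
    exact h2.smul h1

lemma integrable_cmb (f : 𝓢(V, ℂ)) : Integrable (fun p : A × C => f (cmb L p.1 p.2)) :=
  ((cmb_measurePreserving L).integrable_comp_emb (cmb_measurableEmbedding L)).2 f.integrable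

lemma integrable_char_cmb (f : 𝓢(V, ℂ)) (g : A × C → ℝ) (hg : Continuous g) :
    Integrable (fun p : A × C => Real.fourierChar (g p) • f (cmb L p.1 p.2)) := by
  refine (integrable_cmb L f).mono ?_ ?_
  · apply Continuous.aestronglyMeasurable
    exact (Real.continuous_fourierChar.comp hg).smul (f.continuous.comp (continuous_cmb L))
  · filter_upwards with p
    rw [Circle.norm_smul]

lemma integrable_pF (f : 𝓢(V, ℂ)) (k : A) : Integrable (fun c : C => pF L f k c) := by
  simp_rw [pF_eq]
  have := integrable_char_cmb L f (fun p => -inner ℝ p.1 k) (by fun_prop)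
  exact this.integral_prod_right

lemma fourier_pF (f : 𝓢(V, ℂ)) (k : A) (l : C) :
    𝓕 (fun c : C => pF L f k c) l = 𝓕 f (cmb L k l) := by
  rw [SchwartzMap.fourier_coe, Real.fourier_eq, Real.fourier_eq,
    ← (cmb_measurePreserving L).integral_comp (cmb_measurableEmbedding L)]
  rw [Measure.volume_eq_prod, integral_prod_symm]
  · congr 1
    funext c
    rw [pF_eq]
    have hL : ∀ (z : Circle) (v : ℂ), z • v = (z : ℂ) • v := fun _ _ => rfl
    rw [hL, ← integral_smul]
    congr 1
    funext a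
    rw [← hL, ← smul_assoc, inner_cmb]
    congr 1
    rw [smul_eq_mul, ← AddChar.map_add_eq_mul]
    congr 1
    ring
  · have := integrable_char_cmb L f (fun p => -inner ℝ (cmb L p.1 p.2) (cmb L k l))
      (by
        have := continuous_cmb L
        fun_prop)
    exact this

/-- For fixed `k` the partial Fourier transform is a Schwartz function of the other variable. -/
lemma pF_eq_schwartz (f : 𝓢(V, ℂ)) (k : A) :
    (fun c : C => pF L f k c) = (𝓕⁻ (slice2 L (𝓕 f) k) : 𝓢(C, ℂ)) := by
  have hcont : Continuous (fun c : C => pF L f k c) :=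
    (continuous_pF L f).comp (by fun_prop : Continuous fun c : C => (k, c))
  have hF : 𝓕 (fun c : C => pF L f k c) = (slice2 L (𝓕 f) k : C → ℂ) := by
    funext l
    rw [fourier_pF]
    rfl
  have h := hcont.fourierInv_fourier_eq (integrable_pF L f k)
    (by rw [hF]; exact (slice2 L (𝓕 f) k).integrable)
  rw [SchwartzMap.fourierInv_coe, ← hF, h]

lemma integral_norm_sq_pF (f : 𝓢(V, ℂ)) (k : A) :
    ∫ c : C, ‖pF L f k c‖ ^ 2 = ∫ l : C, ‖𝓕 f (cmb L k l)‖ ^ 2 := by
  have h := pF_eq_schwartz L f k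
  have h1 : ∀ c, pF L f k c = (𝓕⁻ (slice2 L (𝓕 f) k) : 𝓢(C, ℂ)) c := fun c => congrFun h c
  simp_rw [h1]
  rw [← SchwartzMap.integral_norm_sq_fourier]
  simp

lemma integrable_norm_sq_pF (f : 𝓢(V, ℂ)) (k : A) :
    Integrable (fun c : C => ‖pF L f k c‖ ^ 2) := by
  have h := pF_eq_schwartz L f k
  have h1 : ∀ c, pF L f k c = (𝓕⁻ (slice2 L (𝓕 f) k) : 𝓢(C, ℂ)) c := fun c => congrFun h c
  simp_rw [h1]
  exact ((𝓕⁻ (slice2 L (𝓕 f) k) : 𝓢(C, ℂ)).memLp 2).integrable_norm_pow (by norm_num)

variable {w : A → ℝ} (hw : Continuous w)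

include hw in
lemma integrable_weight_pF (f : 𝓢(V, ℂ))
    (hint : Integrable (fun p : A × C => w p.1 * ‖𝓕 f (cmb L p.1 p.2)‖ ^ 2)) :
    Integrable (fun p : A × C => w p.1 * ‖pF L f p.1 p.2‖ ^ 2) := by
  rw [Measure.volume_eq_prod, integrable_prod_iff]
  · constructor
    · filter_upwards with k
      exact (integrable_norm_sq_pF L f k).const_mul _
    · have h1 := hint.norm.integral_prod_left
      refine h1.congr ?_
      filter_upwards with k
      simp_rw [norm_mul, integral_const_mul]
      congr 1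
      simp only [norm_pow, norm_norm]
      exact (integral_norm_sq_pF L f k).symm
  · apply Continuous.aestronglyMeasurable
    have := continuous_pF L f
    fun_prop

include hw in
/-- Partial Plancherel: a weight depending only on the first block of momenta. -/
theorem partial_plancherel (f : 𝓢(V, ℂ))
    (hint : Integrable (fun p : A × C => w p.1 * ‖𝓕 f (cmb L p.1 p.2)‖ ^ 2)) :
    ∫ p : A × C, w p.1 * ‖𝓕 f (cmb L p.1 p.2)‖ ^ 2 =
      ∫ c : C, ∫ k : A, w k * ‖𝓕 (slice1 L f c) k‖ ^ 2 := by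
  rw [Measure.volume_eq_prod] at hint ⊢
  have hint' := integrable_weight_pF L hw f hint
  rw [Measure.volume_eq_prod] at hint'
  rw [integral_prod _ hint]
  have h2 := integral_prod_symm _ hint'
  have h3 := integral_prod _ hint'
  rw [h3] at h2
  simp only [pF_eq_fourier_slice] at h2
  rw [← h2]
  congr 1
  funext k
  show ∫ c : C, w k * ‖𝓕 f (cmb L k c)‖ ^ 2 = _
  rw [integral_const_mul, integral_const_mul]
  congr 1
  have := integral_norm_sq_pF L f k
  simp only [pF_eq_fourier_slice] at this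
  exact this.symm

end PartialPlancherel

end Pool.Agent.H96
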