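import Mathlib
import Pool.Agent.H96.PartialPlancherel

set_option autoImplicit false
set_option linter.unusedSectionVars false
open FourierTransform MeasureTheory
open scoped SchwartzMap ENNReal

namespace Pool.Agent.H96

/-- Index splitting as an isometry of Euclidean spaces. -/
noncomputable def idxL {ι₁ ι₂ ι : Type} [Fintype ι₁] [Fintype ι₂] [Fintype ι] (e : ι₁ ⊕ ι₂ ≃ ι) :
    WithLp 2 (EuclideanSpace ℝ ι₁ × EuclideanSpace ℝ ι₂) ≃ₗᵢ[ℝ] EuclideanSpace ℝ ι :=
  (PiLp.sumPiLpEquivProdLpPiLp 2 (fun _ => ℝ)).symm.trans (LinearIsometryEquiv.piLpCongrLeft 2 ℝ ℝ e)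

section idx
variable {ι₁ ι₂ ι : Type} [Fintype ι₁] [Fintype ι₂] [Fintype ι] (e : ι₁ ⊕ ι₂ ≃ ι)

/-- The combination map on coordinates. -/
noncomputable def cmbI (a : EuclideanSpace ℝ ι₁) (c : EuclideanSpace ℝ ι₂) : EuclideanSpace ℝ ι :=
  let L := idxL e
  cmb L a c

lemma cmbI_apply (a : EuclideanSpace ℝ ι₁) (c : EuclideanSpace ℝ ι₂) (s : ι) :
    cmbI e a c s = Sum.elim (fun i => a i) (fun j => c j) (e.symm s) := by
  unfold cmbI cmb idxL
  simp only
  rw [LinearIsometryEquiv.trans_apply, LinearIsometryEquiv.piLpCongrLeft_apply]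
  generalize hs : e.symm s = t
  simp [Equiv.piCongrLeft', hs]
  rcases t with t | t <;> rfl

lemma cmbI_inl (a : EuclideanSpace ℝ ι₁) (c : EuclideanSpace ℝ ι₂) (i : ι₁) :
    cmbI e a c (e (Sum.inl i)) = a i := by
  rw [cmbI_apply]; simp

lemma cmbI_inr (a : EuclideanSpace ℝ ι₁) (c : EuclideanSpace ℝ ι₂) (i : ι₂) :
    cmbI e a c (e (Sum.inr i)) = c i := by
  rw [cmbI_apply]; simp

lemma cmbI_measurePreserving :
    MeasurePreserving (fun p : EuclideanSpace ℝ ι₁ × EuclideanSpace ℝ ι₂ => cmbI e p.1 p.2)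
      (volume : Measure (EuclideanSpace ℝ ι₁ × EuclideanSpace ℝ ι₂)) volume := by
  let L := idxL e
  exact cmb_measurePreserving L

lemma cmbI_measurableEmbedding :
    MeasurableEmbedding
      (fun p : EuclideanSpace ℝ ι₁ × EuclideanSpace ℝ ι₂ => cmbI e p.1 p.2) := by
  let L := idxL e
  exact cmb_measurableEmbedding L

/-- The slice of a Schwartz function. -/
noncomputable def sliceI (f : 𝓢(EuclideanSpace ℝ ι, ℂ)) (c : EuclideanSpace ℝ ι₂) :
    𝓢(EuclideanSpace ℝ ι₁, ℂ) :=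
  let L := idxL e
  slice1 L f c

lemma sliceI_apply (f : 𝓢(EuclideanSpace ℝ ι, ℂ)) (c : EuclideanSpace ℝ ι₂)
    (a : EuclideanSpace ℝ ι₁) : sliceI e f c a = f (cmbI e a c) := rfl

lemma integrable_cmbI_iff (g : EuclideanSpace ℝ ι → ℝ) :
    Integrable (fun p : EuclideanSpace ℝ ι₁ × EuclideanSpace ℝ ι₂ => g (cmbI e p.1 p.2)) ↔
      Integrable g :=
  (cmbI_measurePreserving e).integrable_comp_emb (cmbI_measurableEmbedding e)

lemma integral_cmbI (g : EuclideanSpace ℝ ι → ℝ) :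
    ∫ p : EuclideanSpace ℝ ι₁ × EuclideanSpace ℝ ι₂, g (cmbI e p.1 p.2) = ∫ v, g v :=
  (cmbI_measurePreserving e).integral_comp (cmbI_measurableEmbedding e) g

lemma partial_plancherelI {w : EuclideanSpace ℝ ι₁ → ℝ} (hw : Continuous w)
    {w' : EuclideanSpace ℝ ι → ℝ} (hww' : ∀ a c, w' (cmbI e a c) = w a)
    (f : 𝓢(EuclideanSpace ℝ ι, ℂ))
    (hint : Integrable (fun v => w' v * ‖𝓕 f v‖ ^ 2)) :
    Integrable (fun c => ∫ k : EuclideanSpace ℝ ι₁, w k * ‖𝓕 (sliceI e f c) k‖ ^ 2) ∧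
    ∫ c : EuclideanSpace ℝ ι₂, ∫ k : EuclideanSpace ℝ ι₁, w k * ‖𝓕 (sliceI e f c) k‖ ^ 2 =
      ∫ v : EuclideanSpace ℝ ι, w' v * ‖𝓕 f v‖ ^ 2 := by
  let L := idxL e
  have h1 : Integrable (fun p : EuclideanSpace ℝ ι₁ × EuclideanSpace ℝ ι₂ =>
      w p.1 * ‖𝓕 f (cmb L p.1 p.2)‖ ^ 2) := by
    have := (integrable_cmbI_iff e (fun v => w' v * ‖𝓕 f v‖ ^ 2)).2 hint
    simp only [hww'] at this
    exact this
  constructor
  · have h2 := (integrable_weight_pF L hw f h1).integral_prod_right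
    exact h2
  · rw [← integral_cmbI e]
    simp only [hww']
    exact (partial_plancherel L hw f h1).symm

lemma integral_sliceI {w : EuclideanSpace ℝ ι₁ → ℝ}
    {w' : EuclideanSpace ℝ ι → ℝ} (hww' : ∀ a c, w' (cmbI e a c) = w a)
    (f : 𝓢(EuclideanSpace ℝ ι, ℂ))
    (hint : Integrable (fun v => w' v * ‖f v‖ ^ 2)) :
    Integrable (fun c => ∫ k : EuclideanSpace ℝ ι₁, w k * ‖sliceI e f c k‖ ^ 2) ∧
    ∫ c : EuclideanSpace ℝ ι₂, ∫ k : EuclideanSpace ℝ ι₁, w k * ‖sliceI e f c k‖ ^ 2 =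
      ∫ v : EuclideanSpace ℝ ι, w' v * ‖f v‖ ^ 2 := by
  have h1 : Integrable (fun p : EuclideanSpace ℝ ι₁ × EuclideanSpace ℝ ι₂ =>
      w p.1 * ‖f (cmbI e p.1 p.2)‖ ^ 2) := by
    have := (integrable_cmbI_iff e (fun v => w' v * ‖f v‖ ^ 2)).2 hint
    simp only [hww'] at this
    exact this
  constructor
  · exact h1.integral_prod_right
  · rw [← integral_cmbI e]
    simp only [hww', sliceI_apply]
    rw [Measure.volume_eq_prod] at h1 ⊢
    rw [integral_prod_symm _ h1]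

end idx

/-- The integrable singular part of the Coulomb potential. -/
noncomputable def hsing (u : EuclideanSpace ℝ (Fin 3)) : ℝ := if ‖u‖ < 1 then ‖u‖⁻¹ else 0

lemma hsing_nonneg (u : EuclideanSpace ℝ (Fin 3)) : 0 ≤ hsing u := by
  unfold hsing; split_ifs <;> positivity

lemma inv_norm_le (u : EuclideanSpace ℝ (Fin 3)) : ‖u‖⁻¹ ≤ hsing u + 1 := by
  unfold hsing
  split_ifs with h
  · linarith
  · push Not at h
    have := inv_le_one_of_one_le₀ h
    linarith

lemma integrable_hsing : Integrable hsing := by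
  unfold hsing
  have h := (integrable_fun_norm_addHaar (E := EuclideanSpace ℝ (Fin 3)) (F := ℝ) volume
    (f := fun r => if r < 1 then r⁻¹ else 0)).2
  apply h
  have hfin : Module.finrank ℝ (EuclideanSpace ℝ (Fin 3)) - 1 = 2 := by simp
  rw [hfin]
  have hI : IntegrableOn (fun _ : ℝ => (1 : ℝ)) (Set.Ioo 0 1) :=
    integrableOn_const (by simp) (by simp)
  have h2 : Integrable (Set.indicator (Set.Ioo (0:ℝ) 1) (fun _ => (1:ℝ))) :=
    (integrable_indicator_iff measurableSet_Ioo).2 hI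
  refine Integrable.mono' (h2.integrableOn (s := Set.Ioi 0)) ?_ ?_
  · apply Measurable.aestronglyMeasurable
    simp only [smul_eq_mul]
    apply Measurable.mul (by fun_prop)
    apply Measurable.ite measurableSet_Iio measurable_inv measurable_const
  · rw [ae_restrict_iff' measurableSet_Ioi]
    filter_upwards with y hy
    have hy0 : (0:ℝ) < y := hy
    by_cases h1 : y < 1
    · simp only [h1, if_true, smul_eq_mul]
      rw [Set.indicator_of_mem (show y ∈ Set.Ioo (0:ℝ) 1 from ⟨hy0, h1⟩)]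
      rw [Real.norm_of_nonneg (by positivity)]
      have : y ^ 2 * y⁻¹ = y := by field_simp
      rw [this]; exact h1.le
    · simp only [h1, if_false, smul_zero, norm_zero]
      apply Set.indicator_nonneg
      intro _ _; norm_num

lemma measurable_hsing : Measurable hsing := by
  unfold hsing
  apply Measurable.ite _ (by fun_prop) measurable_const
  exact measurableSet_lt (by fun_prop) measurable_const

section
variable {C V : Type*}
  [NormedAddCommGroup C] [InnerProductSpace ℝ C] [FiniteDimensional ℝ C] [MeasurableSpace C]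
  [BorelSpace C]
  [NormedAddCommGroup V] [InnerProductSpace ℝ V] [FiniteDimensional ℝ V] [MeasurableSpace V]
  [BorelSpace V]
  (L : WithLp 2 (EuclideanSpace ℝ (Fin 3) × C) ≃ₗᵢ[ℝ] V)

lemma integrable_coulomb (f : 𝓢(V, ℂ)) (b : C → EuclideanSpace ℝ (Fin 3)) (hb : Measurable b) :
    Integrable (fun p : EuclideanSpace ℝ (Fin 3) × C =>
      ‖p.1 - b p.2‖⁻¹ * ‖f (cmb L p.1 p.2)‖ ^ 2) := by
  obtain ⟨K, hK0, hK⟩ := decay_cmb L f 0 (Module.finrank ℝ C + 1)
  have hdec : Integrable (fun c : C => (1 + ‖c‖) ^ (-((Module.finrank ℝ C + 1 : ℕ) : ℝ))) := by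
    apply integrable_one_add_norm
    push_cast
    linarith
  have hcont : Continuous (fun p : EuclideanSpace ℝ (Fin 3) × C => f (cmb L p.1 p.2)) :=
    f.continuous.comp (continuous_cmb L)
  -- the two dominating functions
  have hg2 : Integrable (fun p : EuclideanSpace ℝ (Fin 3) × C => ‖f (cmb L p.1 p.2)‖ ^ 2) := by
    have h := (f.memLp 2).integrable_norm_pow (by norm_num)
    exact ((cmb_measurePreserving L).integrable_comp_emb (cmb_measurableEmbedding L)).2 h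
  have hg1 : Integrable (fun p : EuclideanSpace ℝ (Fin 3) × C =>
      hsing (p.1 - b p.2) * (K ^ 2 * (1 + ‖p.2‖) ^ (-((Module.finrank ℝ C + 1 : ℕ) : ℝ)))) := by
    rw [Measure.volume_eq_prod, integrable_prod_iff']
    · constructor
      · filter_upwards with c
        exact (integrable_hsing.comp_sub_right (b c)).mul_const _
      · have : (fun c : C => ∫ x : EuclideanSpace ℝ (Fin 3), ‖hsing (x - b c) *
            (K ^ 2 * (1 + ‖c‖) ^ (-((Module.finrank ℝ C + 1 : ℕ) : ℝ)))‖) =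
            fun c : C => (∫ x, hsing x) *
              (K ^ 2 * (1 + ‖c‖) ^ (-((Module.finrank ℝ C + 1 : ℕ) : ℝ))) := by
          funext c
          have h1 : ∀ x : EuclideanSpace ℝ (Fin 3), ‖hsing (x - b c) *
            (K ^ 2 * (1 + ‖c‖) ^ (-((Module.finrank ℝ C + 1 : ℕ) : ℝ)))‖ = hsing (x - b c) *
            (K ^ 2 * (1 + ‖c‖) ^ (-((Module.finrank ℝ C + 1 : ℕ) : ℝ))) := by
            intro x
            apply Real.norm_of_nonneg
            have := hsing_nonneg (x - b c)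
            positivity
          simp_rw [h1]
          rw [integral_mul_const, integral_sub_right_eq_self (fun x => hsing x)]
        rw [this]
        exact (hdec.const_mul _).const_mul _
    · apply Measurable.aestronglyMeasurable
      apply Measurable.mul
      · exact measurable_hsing.comp (measurable_fst.sub (hb.comp measurable_snd))
      · fun_prop
  refine Integrable.mono' (hg1.add hg2) ?_ ?_
  · apply Measurable.aestronglyMeasurable
    apply Measurable.mul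
    · exact (measurable_fst.sub (hb.comp measurable_snd)).norm.inv
    · exact (hcont.norm.pow 2).measurable
  · filter_upwards with p
    rw [Real.norm_of_nonneg (by positivity)]
    simp only [Pi.add_apply]
    have h1 := inv_norm_le (p.1 - b p.2)
    have h2 := hsing_nonneg (p.1 - b p.2)
    have h3 : ‖f (cmb L p.1 p.2)‖ ≤ K * (1 + ‖p.2‖) ^ (-((Module.finrank ℝ C + 1 : ℕ) : ℝ)) := by
      have := hK p.1 p.2
      simpa using this
    have h4 : (1 + ‖p.2‖) ^ (-((Module.finrank ℝ C + 1 : ℕ) : ℝ)) ≤ 1 := by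
      apply Real.rpow_le_one_of_one_le_of_nonpos
      · linarith [norm_nonneg p.2]
      · simp only [Left.neg_nonpos_iff]; positivity
    have h5 : (0:ℝ) ≤ (1 + ‖p.2‖) ^ (-((Module.finrank ℝ C + 1 : ℕ) : ℝ)) := by positivity
    set D := (1 + ‖p.2‖) ^ (-((Module.finrank ℝ C + 1 : ℕ) : ℝ)) with hD
    have h6 : ‖f (cmb L p.1 p.2)‖ ^ 2 ≤ K ^ 2 * D := by
      calc ‖f (cmb L p.1 p.2)‖ ^ 2 ≤ (K * D) ^ 2 := by gcongr
        _ = K ^ 2 * D * D := by ring
        _ ≤ K ^ 2 * D * 1 := by gcongr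
        _ = K ^ 2 * D := by ring
    calc ‖p.1 - b p.2‖⁻¹ * ‖f (cmb L p.1 p.2)‖ ^ 2
        ≤ (hsing (p.1 - b p.2) + 1) * ‖f (cmb L p.1 p.2)‖ ^ 2 := by gcongr
      _ = hsing (p.1 - b p.2) * ‖f (cmb L p.1 p.2)‖ ^ 2 + ‖f (cmb L p.1 p.2)‖ ^ 2 := by ring
      _ ≤ hsing (p.1 - b p.2) * (K ^ 2 * D) + ‖f (cmb L p.1 p.2)‖ ^ 2 := by gcongr

lemma integrable_coulomb' (f : 𝓢(V, ℂ)) (b : C → EuclideanSpace ℝ (Fin 3)) (hb : Measurable b)
    (g : V → ℝ) (hg : ∀ a c, g (cmb L a c) = ‖a - b c‖⁻¹) :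
    Integrable (fun v : V => g v * ‖f v‖ ^ 2) := by
  rw [← (cmb_measurePreserving L).integrable_comp_emb (cmb_measurableEmbedding L)]
  refine (integrable_coulomb L f b hb).congr ?_
  filter_upwards with p
  simp [Function.comp, hg]

end

/-- Splitting off the coordinates of one electron. -/
def splitOne {N : ℕ} (i : Fin N) : Fin 3 ⊕ ({n : Fin N // n ≠ i} × Fin 3) ≃ Fin N × Fin 3 where
  toFun := Sum.elim (fun c => (i, c)) (fun s => (s.1.1, s.2))
  invFun := fun s => if h : s.1 = i then Sum.inl s.2 else Sum.inr (⟨s.1, h⟩, s.2)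
  left_inv := by
    rintro (c | ⟨⟨n, hn⟩, c⟩)
    · simp
    · simp [hn]
  right_inv := by
    rintro ⟨n, c⟩
    by_cases h : n = i
    · subst h; simp
    · simp [h]

lemma splitOne_inl {N : ℕ} (i : Fin N) (s : Fin 3) : splitOne i (Sum.inl s) = (i, s) := rfl

lemma splitOne_inr {N : ℕ} (i : Fin N) (s : {n : Fin N // n ≠ i} × Fin 3) :
    splitOne i (Sum.inr s) = (s.1.1, s.2) := rfl

lemma cmb_split_inl {N : ℕ} (i : Fin N) (a : EuclideanSpace ℝ (Fin 3))
    (c : EuclideanSpace ℝ ({n : Fin N // n ≠ i} × Fin 3)) (s : Fin 3) :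
    cmbI (splitOne i) a c (i, s) = a s := by
  have := cmbI_inl (splitOne i) a c s
  rwa [splitOne_inl] at this

lemma cmb_split_inr {N : ℕ} (i j : Fin N) (hij : j ≠ i) (a : EuclideanSpace ℝ (Fin 3))
    (c : EuclideanSpace ℝ ({n : Fin N // n ≠ i} × Fin 3)) (s : Fin 3) :
    cmbI (splitOne i) a c (j, s) = c (⟨j, hij⟩, s) := by
  have := cmbI_inr (splitOne i) a c (⟨j, hij⟩, s)
  rwa [splitOne_inr] at this

lemma integrable_coulombI {ι₂ ι : Type} [Fintype ι₂] [Fintype ι] (e : Fin 3 ⊕ ι₂ ≃ ι)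
    (f : 𝓢(EuclideanSpace ℝ ι, ℂ)) (b : EuclideanSpace ℝ ι₂ → EuclideanSpace ℝ (Fin 3))
    (hb : Measurable b) (g : EuclideanSpace ℝ ι → ℝ) (hg : ∀ a c, g (cmbI e a c) = ‖a - b c‖⁻¹) :
    Integrable (fun v => g v * ‖f v‖ ^ 2) := by
  let L := idxL e
  exact integrable_coulomb' L f b hb g hg

lemma integrable_ee {N : ℕ} (i j : Fin N) (hij : j ≠ i)
    (f : 𝓢(EuclideanSpace ℝ (Fin N × Fin 3), ℂ)) :
    Integrable (fun x : EuclideanSpace ℝ (Fin N × Fin 3) =>
      1 / Real.sqrt (∑ c : Fin 3, (x (i, c) - x (j, c)) ^ 2) * ‖f x‖ ^ 2) := by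
  refine integrable_coulombI (splitOne i) f
    (fun y => WithLp.toLp 2 (fun c => y (⟨j, hij⟩, c))) (by fun_prop)
    (fun x => 1 / Real.sqrt (∑ c : Fin 3, (x (i, c) - x (j, c)) ^ 2)) ?_
  intro a c
  simp only [cmb_split_inl, cmb_split_inr i j hij]
  rw [EuclideanSpace.norm_eq]
  simp

lemma integrable_en {N : ℕ} (i : Fin N) (r : Fin 3 → ℝ)
    (f : 𝓢(EuclideanSpace ℝ (Fin N × Fin 3), ℂ)) :
    Integrable (fun x : EuclideanSpace ℝ (Fin N × Fin 3) =>
      1 / Real.sqrt (∑ c : Fin 3, (x (i, c) - r c) ^ 2) * ‖f x‖ ^ 2) := by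
  refine integrable_coulombI (splitOne i) f
    (fun y => WithLp.toLp 2 r) measurable_const
    (fun x => 1 / Real.sqrt (∑ c : Fin 3, (x (i, c) - r c) ^ 2)) ?_
  intro a c
  simp only [cmb_split_inl]
  rw [EuclideanSpace.norm_eq]
  simp

lemma integrable_norm_sq {V : Type*} [NormedAddCommGroup V] [InnerProductSpace ℝ V]
    [FiniteDimensional ℝ V] [MeasurableSpace V] [BorelSpace V] (f : 𝓢(V, ℂ)) :
    Integrable (fun v : V => ‖f v‖ ^ 2) :=
  (f.memLp 2).integrable_norm_pow (by norm_num)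

lemma integrable_growth {V : Type*} [NormedAddCommGroup V] [InnerProductSpace ℝ V]
    [FiniteDimensional ℝ V] [MeasurableSpace V] [BorelSpace V] (f : 𝓢(V, ℂ))
    (w : V → ℝ) (hw : Continuous w) (K : ℝ) (hK : ∀ v, |w v| ≤ K * ‖v‖) :
    Integrable (fun v : V => w v * ‖f v‖ ^ 2) := by
  have h1 : Integrable (fun v : V => ‖v‖ ^ 1 * ‖f v‖) := f.integrable_pow_mul volume 1
  obtain ⟨B, hB⟩ : ∃ B : ℝ, ∀ v, ‖f v‖ ≤ B :=
    ⟨_, fun v => SchwartzMap.norm_le_seminorm ℝ f v⟩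
  have hB0 : 0 ≤ B := (norm_nonneg _).trans (hB 0)
  refine Integrable.mono' ((h1.const_mul (|K| * B))) ?_ ?_
  · apply Continuous.aestronglyMeasurable
    have := f.continuous
    fun_prop
  · filter_upwards with v
    rw [norm_mul, Real.norm_eq_abs, Real.norm_of_nonneg (by positivity : (0:ℝ) ≤ ‖f v‖ ^ 2)]
    calc |w v| * ‖f v‖ ^ 2 ≤ (K * ‖v‖) * ‖f v‖ ^ 2 := by gcongr; exact hK v
      _ ≤ (|K| * ‖v‖) * ‖f v‖ ^ 2 := by gcongr; exact le_abs_self K
      _ = (|K| * ‖v‖ * ‖f v‖) * ‖f v‖ := by ring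
      _ ≤ (|K| * ‖v‖ * ‖f v‖) * B := by gcongr; exact hB v
      _ = |K| * B * (‖v‖ ^ 1 * ‖f v‖) := by ring

end Pool.Agent.H96
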