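import Mathlib
import Pool.Agent.H96.CoulombIntegrable

set_option autoImplicit false
set_option linter.unusedSectionVars false
open FourierTransform MeasureTheory
open scoped SchwartzMap ENNReal

namespace Pool.Agent.H96

/-- Kinetic weight `2π|k_i|` of one electron. -/
noncomputable def kw {N : ℕ} (i : Fin N) (k : EuclideanSpace ℝ (Fin N × Fin 3)) : ℝ :=
  2 * Real.pi * Real.sqrt (∑ c : Fin 3, (WithLp.ofLp k (i, c)) ^ 2)

/-- Electron-electron potential. -/
noncomputable def vee {N : ℕ} (i j : Fin N) (x : EuclideanSpace ℝ (Fin N × Fin 3)) : ℝ :=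
  1 / Real.sqrt (∑ c : Fin 3, (WithLp.ofLp x (i, c) - WithLp.ofLp x (j, c)) ^ 2)

/-- Electron-nucleus potential. -/
noncomputable def ven {N : ℕ} (i : Fin N) (r : Fin 3 → ℝ)
    (x : EuclideanSpace ℝ (Fin N × Fin 3)) : ℝ :=
  1 / Real.sqrt (∑ c : Fin 3, (WithLp.ofLp x (i, c) - r c) ^ 2)

/-- Nucleus-nucleus energy. -/
noncomputable def unn {K : ℕ} (R : Fin K → Fin 3 → ℝ) : ℝ :=
  ∑ l : Fin K, ∑ m : Fin K,
    if l < m then 1 / Real.sqrt (∑ c : Fin 3, (R l c - R m c) ^ 2) else 0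

/-- Kinetic weight of the electrons in `B`. -/
noncomputable def kinB {N : ℕ} (B : Finset (Fin N)) (k : EuclideanSpace ℝ (Fin N × Fin 3)) : ℝ :=
  ∑ i ∈ B, kw i k

/-- Coulomb potential of the electrons in `B` and all nuclei. -/
noncomputable def potB {N K : ℕ} (B : Finset (Fin N)) (z : ℝ) (R : Fin K → Fin 3 → ℝ)
    (x : EuclideanSpace ℝ (Fin N × Fin 3)) : ℝ :=
  (∑ i ∈ B, ∑ j ∈ B, if i < j then vee i j x else 0) - z * (∑ i ∈ B, ∑ l, ven i (R l) x) +
    z ^ 2 * unn R

/-- Antisymmetry of a spin-space state. -/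
def Antisym {N q : ℕ} (ψ : (Fin N → Fin q) → 𝓢(EuclideanSpace ℝ (Fin N × Fin 3), ℂ)) : Prop :=
  ∀ (π' : Equiv.Perm (Fin N)) (σ : Fin N → Fin q) (x : EuclideanSpace ℝ (Fin N × Fin 3)),
    ψ (σ ∘ π') (WithLp.toLp 2 (fun p : Fin N × Fin 3 => WithLp.ofLp x (π' p.1, p.2)))
      = ((Equiv.Perm.sign π' : ℤ) : ℂ) * ψ σ x

/-- The energy form restricted to the electrons in `B`. -/
noncomputable def formB {N K q : ℕ} (B : Finset (Fin N)) (α z : ℝ) (R : Fin K → Fin 3 → ℝ)
    (ψ : (Fin N → Fin q) → 𝓢(EuclideanSpace ℝ (Fin N × Fin 3), ℂ)) : ℝ :=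
  (∑ σ, ∫ k, kinB B k * ‖𝓕 (ψ σ) k‖ ^ 2) + α * ∑ σ, ∫ x, potB B z R x * ‖ψ σ x‖ ^ 2

/-- Stability of the relativistic Coulomb system. -/
def Stable (q : ℕ) (α z : ℝ) : Prop :=
  ∀ N K : ℕ, ∀ R : Fin K → Fin 3 → ℝ, Function.Injective R →
    ∀ ψ : (Fin N → Fin q) → 𝓢(EuclideanSpace ℝ (Fin N × Fin 3), ℂ), Antisym ψ →
      0 ≤ formB Finset.univ α z R ψ

/-! ### Integrability -/

lemma continuous_kw {N : ℕ} (i : Fin N) : Continuous (kw i) := by
  unfold kw
  fun_prop

lemma kw_le {N : ℕ} (i : Fin N) (k : EuclideanSpace ℝ (Fin N × Fin 3)) :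
    |kw i k| ≤ 2 * Real.pi * ‖k‖ := by
  unfold kw
  rw [abs_of_nonneg (by positivity)]
  have h : Real.sqrt (∑ c : Fin 3, (WithLp.ofLp k (i, c)) ^ 2) ≤ ‖k‖ := by
    rw [EuclideanSpace.norm_eq]
    apply Real.sqrt_le_sqrt
    rw [Fintype.sum_prod_type]
    simp only [Real.norm_eq_abs, sq_abs]
    exact Finset.single_le_sum (f := fun n : Fin N => ∑ c : Fin 3, (WithLp.ofLp k (n, c)) ^ 2)
      (fun n _ => by positivity) (Finset.mem_univ i)
  gcongr

lemma continuous_kinB {N : ℕ} (B : Finset (Fin N)) : Continuous (kinB B) := by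
  unfold kinB
  exact continuous_finsetSum _ fun i _ => continuous_kw i

lemma kinB_le {N : ℕ} (B : Finset (Fin N)) (k : EuclideanSpace ℝ (Fin N × Fin 3)) :
    |kinB B k| ≤ (B.card * (2 * Real.pi)) * ‖k‖ := by
  unfold kinB
  calc |∑ i ∈ B, kw i k| ≤ ∑ i ∈ B, |kw i k| := Finset.abs_sum_le_sum_abs _ _
    _ ≤ ∑ i ∈ B, 2 * Real.pi * ‖k‖ := Finset.sum_le_sum fun i _ => kw_le i k
    _ = (B.card * (2 * Real.pi)) * ‖k‖ := by rw [Finset.sum_const, nsmul_eq_mul]; ring

lemma integrable_kinB {N : ℕ} (B : Finset (Fin N)) (f : 𝓢(EuclideanSpace ℝ (Fin N × Fin 3), ℂ)) :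
    Integrable (fun k => kinB B k * ‖f k‖ ^ 2) :=
  integrable_growth f (kinB B) (continuous_kinB B) _ (kinB_le B)

lemma integrable_vee {N : ℕ} (i j : Fin N) (hij : i < j)
    (f : 𝓢(EuclideanSpace ℝ (Fin N × Fin 3), ℂ)) : Integrable (fun x => vee i j x * ‖f x‖ ^ 2) :=
  integrable_ee i j hij.ne' f

lemma integrable_ven {N : ℕ} (i : Fin N) (r : Fin 3 → ℝ)
    (f : 𝓢(EuclideanSpace ℝ (Fin N × Fin 3), ℂ)) : Integrable (fun x => ven i r x * ‖f x‖ ^ 2) :=
  integrable_en i r f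

lemma integrable_potB {N K : ℕ} (B : Finset (Fin N)) (z : ℝ) (R : Fin K → Fin 3 → ℝ)
    (f : 𝓢(EuclideanSpace ℝ (Fin N × Fin 3), ℂ)) :
    Integrable (fun x => potB B z R x * ‖f x‖ ^ 2) := by
  have h1 : Integrable (fun x => ∑ i ∈ B, ∑ j ∈ B, (if i < j then vee i j x else 0) * ‖f x‖ ^ 2) := by
    refine integrable_finsetSum _ fun i _ => integrable_finsetSum _ fun j _ => ?_
    by_cases h : i < j
    · simpa [h] using integrable_vee i j h f
    · simp [h]
  have h2 : Integrable (fun x => ∑ i ∈ B, ∑ l, ven i (R l) x * ‖f x‖ ^ 2) :=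
    integrable_finsetSum _ fun i _ => integrable_finsetSum _ fun l _ => integrable_ven i (R l) f
  have h3 : Integrable (fun x => ‖f x‖ ^ 2) := integrable_norm_sq f
  refine ((h1.sub (h2.const_mul z)).add (h3.const_mul (z ^ 2 * unn R))).congr ?_
  filter_upwards with x
  simp only [Pi.add_apply, Pi.sub_apply, potB]
  simp only [← Finset.sum_mul]
  ring

/-! ### Slicing off the electrons outside `B` -/

section slicing
variable {N : ℕ} (B : Finset (Fin N))

/-- Splitting the electron labels into `B` and its complement. -/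
noncomputable def eB : Fin B.card ⊕ Fin Bᶜ.card ≃ Fin N := finSumEquivOfFinset rfl rfl

/-- Splitting the coordinate labels. -/
noncomputable def eB3 : (Fin B.card × Fin 3) ⊕ (Fin Bᶜ.card × Fin 3) ≃ Fin N × Fin 3 :=
  (Equiv.sumProdDistrib (Fin B.card) (Fin Bᶜ.card) (Fin 3)).symm.trans
    ((eB B).prodCongr (Equiv.refl _))

lemma eB3_inl (i : Fin B.card) (s : Fin 3) : eB3 B (Sum.inl (i, s)) = (eB B (Sum.inl i), s) := rfl
lemma eB3_inr (i : Fin Bᶜ.card) (s : Fin 3) : eB3 B (Sum.inr (i, s)) = (eB B (Sum.inr i), s) := rfl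

lemma eB_inl (i : Fin B.card) : eB B (Sum.inl i) = B.orderEmbOfFin rfl i := by
  unfold eB; simp

lemma sum_eB_inl {M : Type*} [AddCommMonoid M] (g : Fin N → M) :
    ∑ i : Fin B.card, g (eB B (Sum.inl i)) = ∑ i ∈ B, g i := by
  simp_rw [eB_inl]
  have h : ∑ i : Fin B.card, g (B.orderEmbOfFin rfl i) =
      ∑ i ∈ (Finset.univ.map (B.orderEmbOfFin rfl).toEmbedding), g i := by
    rw [Finset.sum_map]; rfl
  rw [h, Finset.map_orderEmbOfFin_univ]

lemma eB_lt (i j : Fin B.card) : eB B (Sum.inl i) < eB B (Sum.inl j) ↔ i < j := by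
  rw [eB_inl, eB_inl]
  exact (B.orderEmbOfFin rfl).lt_iff_lt

lemma cmbB_inl (a : EuclideanSpace ℝ (Fin B.card × Fin 3))
    (c : EuclideanSpace ℝ (Fin Bᶜ.card × Fin 3)) (i : Fin B.card) (s : Fin 3) :
    cmbI (eB3 B) a c (eB B (Sum.inl i), s) = a (i, s) := by
  rw [← eB3_inl]; exact cmbI_inl (eB3 B) a c (i, s)

lemma cmbB_inr (a : EuclideanSpace ℝ (Fin B.card × Fin 3))
    (c : EuclideanSpace ℝ (Fin Bᶜ.card × Fin 3)) (i : Fin Bᶜ.card) (s : Fin 3) :
    cmbI (eB3 B) a c (eB B (Sum.inr i), s) = c (i, s) := by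
  rw [← eB3_inr]; exact cmbI_inr (eB3 B) a c (i, s)

lemma kinB_cmb (a : EuclideanSpace ℝ (Fin B.card × Fin 3))
    (c : EuclideanSpace ℝ (Fin Bᶜ.card × Fin 3)) :
    kinB B (cmbI (eB3 B) a c) = kinB Finset.univ a := by
  unfold kinB
  rw [← sum_eB_inl B (fun i => kw i (cmbI (eB3 B) a c))]
  refine Finset.sum_congr rfl fun i _ => ?_
  unfold kw
  simp only [cmbB_inl]

lemma potB_cmb {K : ℕ} (z : ℝ) (R : Fin K → Fin 3 → ℝ) (a : EuclideanSpace ℝ (Fin B.card × Fin 3))
    (c : EuclideanSpace ℝ (Fin Bᶜ.card × Fin 3)) :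
    potB B z R (cmbI (eB3 B) a c) = potB Finset.univ z R a := by
  unfold potB
  rw [← sum_eB_inl B (fun i => ∑ j ∈ B, if i < j then vee i j (cmbI (eB3 B) a c) else 0),
    ← sum_eB_inl B (fun i => ∑ l, ven i (R l) (cmbI (eB3 B) a c))]
  congr 2
  · refine Finset.sum_congr rfl fun i _ => ?_
    rw [← sum_eB_inl B (fun j => if eB B (Sum.inl i) < j then
      vee (eB B (Sum.inl i)) j (cmbI (eB3 B) a c) else 0)]
    refine Finset.sum_congr rfl fun j _ => ?_
    simp only [eB_lt]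
    unfold vee
    simp only [cmbB_inl]
  · congr 1
    refine Finset.sum_congr rfl fun i _ => ?_
    refine Finset.sum_congr rfl fun l _ => ?_
    unfold ven
    simp only [cmbB_inl]

/-- Glueing spin configurations. -/
noncomputable def glue {q : ℕ} (σ : Fin B.card → Fin q) (τ : Fin Bᶜ.card → Fin q) : Fin N → Fin q :=
  fun n => Sum.elim σ τ ((eB B).symm n)

/-- Glueing as an equivalence. -/
noncomputable def glueEquiv (q : ℕ) :
    (Fin B.card → Fin q) × (Fin Bᶜ.card → Fin q) ≃ (Fin N → Fin q) :=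
  (Equiv.sumArrowEquivProdArrow _ _ _).symm.trans ((eB B).arrowCongr (Equiv.refl _))

lemma glueEquiv_apply {q : ℕ} (p : (Fin B.card → Fin q) × (Fin Bᶜ.card → Fin q)) :
    glueEquiv B q p = glue B p.1 p.2 := by
  funext n
  simp only [glueEquiv, glue, Equiv.trans_apply, Equiv.arrowCongr_apply, Equiv.coe_refl,
    Function.comp_apply, id]
  rfl

lemma sum_glue {q : ℕ} (g : (Fin N → Fin q) → ℝ) :
    ∑ τ : Fin Bᶜ.card → Fin q, ∑ σ : Fin B.card → Fin q, g (glue B σ τ) = ∑ σ, g σ := by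
  rw [← Equiv.sum_comp (glueEquiv B q), Fintype.sum_prod_type_right]
  simp only [glueEquiv_apply]

/-- Extending a permutation of the electrons in `B`. -/
noncomputable def extPerm (p : Equiv.Perm (Fin B.card)) : Equiv.Perm (Fin N) :=
  (eB B).permCongr (Equiv.Perm.sumCongr p 1)

lemma sign_extPerm (p : Equiv.Perm (Fin B.card)) :
    Equiv.Perm.sign (extPerm B p) = Equiv.Perm.sign p := by
  unfold extPerm
  rw [Equiv.Perm.sign_permCongr, Equiv.Perm.sign_sumCongr]
  simp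

lemma extPerm_inl (p : Equiv.Perm (Fin B.card)) (i : Fin B.card) :
    extPerm B p (eB B (Sum.inl i)) = eB B (Sum.inl (p i)) := by
  simp [extPerm, Equiv.permCongr_apply]

lemma extPerm_inr (p : Equiv.Perm (Fin B.card)) (i : Fin Bᶜ.card) :
    extPerm B p (eB B (Sum.inr i)) = eB B (Sum.inr i) := by
  simp [extPerm, Equiv.permCongr_apply]

lemma glue_inl {q : ℕ} (σ : Fin B.card → Fin q) (τ : Fin Bᶜ.card → Fin q) (i : Fin B.card) :
    glue B σ τ (eB B (Sum.inl i)) = σ i := by simp [glue]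

lemma glue_inr {q : ℕ} (σ : Fin B.card → Fin q) (τ : Fin Bᶜ.card → Fin q) (i : Fin Bᶜ.card) :
    glue B σ τ (eB B (Sum.inr i)) = τ i := by simp [glue]

lemma glue_comp {q : ℕ} (σ : Fin B.card → Fin q) (τ : Fin Bᶜ.card → Fin q)
    (p : Equiv.Perm (Fin B.card)) : glue B (σ ∘ p) τ = glue B σ τ ∘ extPerm B p := by
  funext n
  obtain ⟨s, rfl⟩ := (eB B).surjective n
  rcases s with i | i
  · rw [glue_inl, Function.comp_apply, Function.comp_apply, extPerm_inl, glue_inl]
  · rw [glue_inr, Function.comp_apply, extPerm_inr, glue_inr]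

lemma cmb_comp (a : EuclideanSpace ℝ (Fin B.card × Fin 3))
    (c : EuclideanSpace ℝ (Fin Bᶜ.card × Fin 3)) (p : Equiv.Perm (Fin B.card)) :
    cmbI (eB3 B) (WithLp.toLp 2 (fun s : Fin B.card × Fin 3 => WithLp.ofLp a (p s.1, s.2))) c =
      WithLp.toLp 2 (fun s : Fin N × Fin 3 =>
        WithLp.ofLp (cmbI (eB3 B) a c) (extPerm B p s.1, s.2)) := by
  ext ⟨n, s⟩
  obtain ⟨t, rfl⟩ := (eB B).surjective n
  rcases t with i | i
  · rw [cmbB_inl]
    simp only [extPerm_inl, cmbB_inl]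
  · rw [cmbB_inr]
    simp only [extPerm_inr, cmbB_inr]

/-- The slice of a state. -/
noncomputable def sliceψ {q : ℕ} (ψ : (Fin N → Fin q) → 𝓢(EuclideanSpace ℝ (Fin N × Fin 3), ℂ))
    (τ : Fin Bᶜ.card → Fin q) (c : EuclideanSpace ℝ (Fin Bᶜ.card × Fin 3)) :
    (Fin B.card → Fin q) → 𝓢(EuclideanSpace ℝ (Fin B.card × Fin 3), ℂ) :=
  fun σ => sliceI (eB3 B) (ψ (glue B σ τ)) c

lemma antisym_slice {q : ℕ} {ψ : (Fin N → Fin q) → 𝓢(EuclideanSpace ℝ (Fin N × Fin 3), ℂ)}
    (hψ : Antisym ψ) (τ : Fin Bᶜ.card → Fin q) (c : EuclideanSpace ℝ (Fin Bᶜ.card × Fin 3)) :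
    Antisym (sliceψ B ψ τ c) := by
  intro p σ x
  unfold sliceψ
  rw [sliceI_apply, sliceI_apply, glue_comp, cmb_comp, hψ (extPerm B p), sign_extPerm]

theorem form_subset_nonneg {q K : ℕ} {α z : ℝ} (hS : Stable q α z) (R : Fin K → Fin 3 → ℝ)
    (hR : Function.Injective R)
    {ψ : (Fin N → Fin q) → 𝓢(EuclideanSpace ℝ (Fin N × Fin 3), ℂ)} (hψ : Antisym ψ) :
    0 ≤ formB B α z R ψ := by
  have key : ∀ τ : Fin Bᶜ.card → Fin q,
      0 ≤ (∑ σ : Fin B.card → Fin q, ∫ k, kinB B k * ‖𝓕 (ψ (glue B σ τ)) k‖ ^ 2) +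
        α * ∑ σ : Fin B.card → Fin q, ∫ x, potB B z R x * ‖ψ (glue B σ τ) x‖ ^ 2 := by
    intro τ
    have h0 : ∀ c, 0 ≤ formB Finset.univ α z R (sliceψ B ψ τ c) := fun c =>
      hS _ _ R hR _ (antisym_slice B hψ τ c)
    have h1 := fun σ : Fin B.card → Fin q =>
      partial_plancherelI (eB3 B) (continuous_kinB (N := B.card) Finset.univ) (kinB_cmb B)
        (ψ (glue B σ τ)) (integrable_kinB B _)
    have h2 := fun σ : Fin B.card → Fin q =>
      integral_sliceI (eB3 B) (potB_cmb B z R)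
        (ψ (glue B σ τ)) (integrable_potB B z R _)
    have h3 : 0 ≤ ∫ c, formB Finset.univ α z R (sliceψ B ψ τ c) := integral_nonneg h0
    have h4 : ∫ c, formB Finset.univ α z R (sliceψ B ψ τ c) =
      (∑ σ : Fin B.card → Fin q, ∫ k, kinB B k * ‖𝓕 (ψ (glue B σ τ)) k‖ ^ 2) +
        α * ∑ σ : Fin B.card → Fin q, ∫ x, potB B z R x * ‖ψ (glue B σ τ) x‖ ^ 2 := by
      unfold formB sliceψ
      rw [integral_add, integral_const_mul, integral_finsetSum, integral_finsetSum]
      · simp_rw [(h1 _).2, (h2 _).2]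
      · intro σ _; exact (h2 σ).1
      · intro σ _; exact (h1 σ).1
      · exact integrable_finsetSum _ fun σ _ => (h1 σ).1
      · exact (integrable_finsetSum _ fun σ _ => (h2 σ).1).const_mul _
    rwa [h4] at h3
  have hsum := Finset.sum_nonneg fun τ (_ : τ ∈ (Finset.univ : Finset (Fin Bᶜ.card → Fin q))) =>
    key τ
  rw [Finset.sum_add_distrib, ← Finset.mul_sum] at hsum
  rw [sum_glue B (fun σ => ∫ k, kinB B k * ‖𝓕 (ψ σ) k‖ ^ 2),
    sum_glue B (fun σ => ∫ x, potB B z R x * ‖ψ σ x‖ ^ 2)] at hsum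
  exact hsum

end slicing

/-! ### Averaging over random subsets of electrons -/

/-- The Bernoulli weight of a subset. -/
noncomputable def wt {N : ℕ} (p : ℝ) (B : Finset (Fin N)) : ℝ :=
  p ^ B.card * (1 - p) ^ Bᶜ.card

lemma wt_nonneg {N : ℕ} {p : ℝ} (hp0 : 0 ≤ p) (hp1 : p ≤ 1) (B : Finset (Fin N)) : 0 ≤ wt p B := by
  unfold wt
  have : 0 ≤ 1 - p := by linarith
  positivity

lemma sum_wt_superset {N : ℕ} (p : ℝ) (S : Finset (Fin N)) :
    ∑ B : Finset (Fin N), wt p B * (if S ⊆ B then 1 else 0) = p ^ S.card := by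
  have h := Finset.prod_add (fun _ : Fin N => p) (fun i => if i ∈ S then 0 else 1 - p) Finset.univ
  have h1 : ∏ i : Fin N, (p + if i ∈ S then 0 else 1 - p) = p ^ S.card := by
    have : ∀ i : Fin N, (p + if i ∈ S then 0 else 1 - p) = if i ∈ S then p else 1 := by
      intro i; split_ifs <;> ring
    simp_rw [this]
    rw [Finset.prod_ite_mem]
    simp
  rw [h1] at h
  rw [h, Finset.powerset_univ]
  refine Finset.sum_congr rfl fun B _ => ?_
  rw [Finset.prod_const, ← Finset.compl_eq_univ_sdiff]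
  unfold wt
  by_cases hSB : S ⊆ B
  · rw [if_pos hSB, mul_one]
    congr 1
    rw [← Finset.prod_const]
    refine (Finset.prod_congr rfl fun i hi => ?_).symm
    have : i ∉ S := fun h => (Finset.mem_compl.1 hi) (hSB h)
    rw [if_neg this]
  · rw [if_neg hSB, mul_zero]
    obtain ⟨i, hiS, hiB⟩ := Finset.not_subset.1 hSB
    rw [Finset.prod_eq_zero (i := i) (Finset.mem_compl.2 hiB) (by rw [if_pos hiS]), mul_zero]

lemma sum_wt {N : ℕ} (p : ℝ) : ∑ B : Finset (Fin N), wt p B = 1 := by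
  have := sum_wt_superset p (∅ : Finset (Fin N))
  simpa using this

lemma sum_wt_one {N : ℕ} (p : ℝ) (g : Fin N → ℝ) :
    ∑ B : Finset (Fin N), wt p B * ∑ i ∈ B, g i = p * ∑ i, g i := by
  have h : ∀ i : Fin N, ∑ B : Finset (Fin N), wt p B * (if i ∈ B then 1 else 0) = p := by
    intro i
    have := sum_wt_superset p ({i} : Finset (Fin N))
    simpa using this
  calc ∑ B : Finset (Fin N), wt p B * ∑ i ∈ B, g i
      = ∑ B : Finset (Fin N), ∑ i, (wt p B * (if i ∈ B then 1 else 0)) * g i := by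
        refine Finset.sum_congr rfl fun B _ => ?_
        rw [Finset.mul_sum]
        rw [← Finset.sum_subset (Finset.subset_univ B)]
        · refine Finset.sum_congr rfl fun i hi => ?_
          rw [if_pos hi, mul_one]
        · intro i _ hi
          rw [if_neg hi]; ring
    _ = ∑ i, ∑ B : Finset (Fin N), (wt p B * (if i ∈ B then 1 else 0)) * g i :=
        Finset.sum_comm
    _ = p * ∑ i, g i := by
        simp_rw [← Finset.sum_mul, h]
        rw [← Finset.mul_sum]

lemma sum_wt_two {N : ℕ} (p : ℝ) (g : Fin N → Fin N → ℝ) :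
    ∑ B : Finset (Fin N), wt p B * (∑ i ∈ B, ∑ j ∈ B, if i < j then g i j else 0) =
      p ^ 2 * ∑ i, ∑ j, if i < j then g i j else 0 := by
  have h : ∀ i j : Fin N, i < j →
      ∑ B : Finset (Fin N), wt p B * (if i ∈ B ∧ j ∈ B then 1 else 0) = p ^ 2 := by
    intro i j hij
    have := sum_wt_superset p ({i, j} : Finset (Fin N))
    rw [Finset.card_pair hij.ne] at this
    rw [← this]
    refine Finset.sum_congr rfl fun B _ => ?_
    congr 2
    simp [Finset.insert_subset_iff]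
  calc ∑ B : Finset (Fin N), wt p B * (∑ i ∈ B, ∑ j ∈ B, if i < j then g i j else 0)
      = ∑ B : Finset (Fin N), ∑ i, ∑ j,
          (wt p B * (if i ∈ B ∧ j ∈ B then 1 else 0)) * (if i < j then g i j else 0) := by
        refine Finset.sum_congr rfl fun B _ => ?_
        rw [Finset.mul_sum]
        rw [← Finset.sum_subset (Finset.subset_univ B)]
        · refine Finset.sum_congr rfl fun i hi => ?_
          rw [Finset.mul_sum]
          rw [← Finset.sum_subset (Finset.subset_univ B)]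
          · refine Finset.sum_congr rfl fun j hj => ?_
            have hh : (if i ∈ B ∧ j ∈ B then (1 : ℝ) else 0) = 1 := if_pos ⟨hi, hj⟩
            rw [hh, mul_one]
          · intro j _ hj
            have hh : (if i ∈ B ∧ j ∈ B then (1 : ℝ) else 0) = 0 := if_neg (fun h => hj h.2)
            rw [hh]; ring
        · intro i _ hi
          refine Finset.sum_eq_zero fun j _ => ?_
          have hh : (if i ∈ B ∧ j ∈ B then (1 : ℝ) else 0) = 0 := if_neg (fun h => hi h.1)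
          rw [hh]; ring
    _ = ∑ i, ∑ B : Finset (Fin N), ∑ j,
          (wt p B * (if i ∈ B ∧ j ∈ B then 1 else 0)) * (if i < j then g i j else 0) :=
        Finset.sum_comm
    _ = ∑ i, ∑ j, ∑ B : Finset (Fin N),
          (wt p B * (if i ∈ B ∧ j ∈ B then 1 else 0)) * (if i < j then g i j else 0) :=
        Finset.sum_congr rfl fun i _ => Finset.sum_comm
    _ = p ^ 2 * ∑ i, ∑ j, if i < j then g i j else 0 := by
        rw [Finset.mul_sum]
        refine Finset.sum_congr rfl fun i _ => ?_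
        rw [Finset.mul_sum]
        refine Finset.sum_congr rfl fun j _ => ?_
        rw [← Finset.sum_mul]
        by_cases hij : i < j
        · rw [h i j hij]
        · simp [hij]

lemma avg_kin {N : ℕ} (p : ℝ) (k : EuclideanSpace ℝ (Fin N × Fin 3)) :
    ∑ B : Finset (Fin N), wt p B * kinB B k = p * kinB Finset.univ k := by
  unfold kinB
  exact sum_wt_one p (fun i => kw i k)

lemma avg_pot {N K : ℕ} {p : ℝ} (hp : p ≠ 0) (α z : ℝ) (R : Fin K → Fin 3 → ℝ)
    (x : EuclideanSpace ℝ (Fin N × Fin 3)) :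
    α * ∑ B : Finset (Fin N), wt p B * potB B z R x =
      p * ((p * α) * potB Finset.univ (z / p) R x) := by
  unfold potB
  have h2 := sum_wt_two p (fun i j => vee i j x)
  have h1 := sum_wt_one p (fun i => ∑ l, ven i (R l) x)
  have h0 := sum_wt (N := N) p
  have hexp : ∑ B : Finset (Fin N), wt p B *
      ((∑ i ∈ B, ∑ j ∈ B, if i < j then vee i j x else 0) - z * (∑ i ∈ B, ∑ l, ven i (R l) x) +
        z ^ 2 * unn R) =
      (∑ B : Finset (Fin N), wt p B * (∑ i ∈ B, ∑ j ∈ B, if i < j then vee i j x else 0)) -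
      z * (∑ B : Finset (Fin N), wt p B * ∑ i ∈ B, ∑ l, ven i (R l) x) +
      (∑ B : Finset (Fin N), wt p B) * (z ^ 2 * unn R) := by
    rw [Finset.mul_sum, Finset.sum_mul, ← Finset.sum_sub_distrib, ← Finset.sum_add_distrib]
    refine Finset.sum_congr rfl fun B _ => ?_
    ring
  rw [hexp, h2, h1, h0]
  field_simp

/-- **Key monotonicity.** Stability at coupling `α` with nuclear charge `z` implies stability at
coupling `p α` with nuclear charge `z / p`, for `0 < p ≤ 1`: average the energy inequality over the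
random subset of electrons in which each electron is kept with probability `p`. -/
theorem stable_mono {q : ℕ} {α z p : ℝ} (hp0 : 0 < p) (hp1 : p ≤ 1) (hS : Stable q α z) :
    Stable q (p * α) (z / p) := by
  intro N K R hR ψ hψ
  have h0 : ∀ B : Finset (Fin N), 0 ≤ formB B α z R ψ := fun B =>
    form_subset_nonneg B hS R hR hψ
  have hsum : 0 ≤ ∑ B : Finset (Fin N), wt p B * formB B α z R ψ :=
    Finset.sum_nonneg fun B _ => mul_nonneg (wt_nonneg hp0.le hp1 B) (h0 B)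
  have hkin : ∀ σ, ∑ B : Finset (Fin N), wt p B * ∫ k, kinB B k * ‖𝓕 (ψ σ) k‖ ^ 2 =
      p * ∫ k, kinB Finset.univ k * ‖𝓕 (ψ σ) k‖ ^ 2 := by
    intro σ
    have h1 : ∀ B : Finset (Fin N), wt p B * ∫ k, kinB B k * ‖𝓕 (ψ σ) k‖ ^ 2 =
        ∫ k, wt p B * (kinB B k * ‖𝓕 (ψ σ) k‖ ^ 2) := fun B => (integral_const_mul _ _).symm
    simp_rw [h1]
    rw [← integral_finsetSum _ fun B _ => (integrable_kinB B (𝓕 (ψ σ))).const_mul _,
      ← integral_const_mul]
    congr 1
    funext k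
    rw [← mul_assoc, ← avg_kin, Finset.sum_mul]
    refine Finset.sum_congr rfl fun B _ => ?_
    ring
  have hpot : ∀ σ, α * ∑ B : Finset (Fin N), wt p B * ∫ x, potB B z R x * ‖ψ σ x‖ ^ 2 =
      p * ((p * α) * ∫ x, potB Finset.univ (z / p) R x * ‖ψ σ x‖ ^ 2) := by
    intro σ
    have h1 : ∀ B : Finset (Fin N), wt p B * ∫ x, potB B z R x * ‖ψ σ x‖ ^ 2 =
        ∫ x, wt p B * (potB B z R x * ‖ψ σ x‖ ^ 2) := fun B => (integral_const_mul _ _).symm
    simp_rw [h1]
    rw [← integral_finsetSum _ fun B _ => (integrable_potB B z R (ψ σ)).const_mul _,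
      ← integral_const_mul, ← integral_const_mul, ← integral_const_mul]
    congr 1
    funext x
    have h2 := avg_pot hp0.ne' α z R x
    have h3 : ∑ B : Finset (Fin N), wt p B * (potB B z R x * ‖ψ σ x‖ ^ 2) =
        (∑ B : Finset (Fin N), wt p B * potB B z R x) * ‖ψ σ x‖ ^ 2 := by
      rw [Finset.sum_mul]
      refine Finset.sum_congr rfl fun B _ => ?_
      ring
    rw [h3, ← mul_assoc, h2]
    ring
  have heq : ∑ B : Finset (Fin N), wt p B * formB B α z R ψ =
      p * formB Finset.univ (p * α) (z / p) R ψ := by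
    unfold formB
    simp_rw [mul_add, Finset.sum_add_distrib]
    congr 1
    · simp_rw [Finset.mul_sum]
      rw [Finset.sum_comm]
      refine Finset.sum_congr rfl fun σ _ => ?_
      exact hkin σ
    · have : ∀ B : Finset (Fin N), wt p B * (α * ∑ σ, ∫ x, potB B z R x * ‖ψ σ x‖ ^ 2) =
          ∑ σ, α * (wt p B * ∫ x, potB B z R x * ‖ψ σ x‖ ^ 2) := by
        intro B
        rw [← mul_assoc, mul_comm (wt p B) α, mul_assoc, Finset.mul_sum, Finset.mul_sum]
      simp_rw [this]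
      rw [Finset.sum_comm, Finset.mul_sum, Finset.mul_sum]
      refine Finset.sum_congr rfl fun σ _ => ?_
      rw [← Finset.mul_sum]
      exact hpot σ
  rw [heq] at hsum
  exact nonneg_of_mul_nonneg_right hsum hp0

end Pool.Agent.H96
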