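import Mathlib
import Pool.Agent.H96.CoulombAverage

set_option autoImplicit false
set_option linter.unusedSectionVars false
open FourierTransform MeasureTheory
open scoped SchwartzMap ENNReal

namespace Pool.Agent.H96

/-- A nonzero Schwartz function supported in the unit ball. -/
lemma exists_bump (V : Type*) [NormedAddCommGroup V] [InnerProductSpace ℝ V]
    [FiniteDimensional ℝ V] [MeasurableSpace V] [BorelSpace V] :
    ∃ f : 𝓢(V, ℂ), (∀ x, 1 ≤ ‖x‖ → f x = 0) ∧ 0 < ∫ x, ‖f x‖ ^ 2 := by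
  let b : ContDiffBump (0 : V) := ⟨1 / 2, 1, by norm_num, by norm_num⟩
  have hsm : ContDiff ℝ (⊤ : ℕ∞) (fun x : V => ((b x : ℝ) : ℂ)) :=
    Complex.ofRealCLM.contDiff.comp b.contDiff
  have hcs : HasCompactSupport (fun x : V => ((b x : ℝ) : ℂ)) := by
    have h := b.hasCompactSupport
    exact h.comp_left (g := fun r : ℝ => (r : ℂ)) (by simp)
  refine ⟨hcs.toSchwartzMap hsm, ?_, ?_⟩
  · intro x hx
    have : b x = 0 := b.zero_of_le_dist (by simpa using hx)
    show ((b x : ℝ) : ℂ) = 0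
    rw [this]; simp
  · rw [integral_pos_iff_support_of_nonneg (fun x => by positivity) (integrable_norm_sq _)]
    have hsub : Metric.ball (0 : V) 1 ⊆
        Function.support (fun x => ‖(hcs.toSchwartzMap hsm) x‖ ^ 2) := by
      intro x hx
      rw [Function.mem_support]
      have h1 : 0 < b x := b.pos_of_mem_ball hx
      have h2 : (hcs.toSchwartzMap hsm) x = ((b x : ℝ) : ℂ) := rfl
      rw [h2]
      have h3 : ‖((b x : ℝ) : ℂ)‖ = b x := by
        rw [Complex.norm_real, Real.norm_of_nonneg h1.le]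
      rw [h3]
      positivity
    exact lt_of_lt_of_le (Metric.measure_ball_pos volume _ one_pos) (measure_mono hsub)

/-- Positions of the nuclei in the trial configuration. -/
noncomputable def Rpos (K : ℕ) (l : Fin K) : Fin 3 → ℝ := fun c => if c = 0 then 2 + 1 / ((l : ℝ) + 1) else 0

lemma Rpos_injective (K : ℕ) : Function.Injective (Rpos K) := by
  intro l m h
  have h0 := congrFun h 0
  simp only [Rpos, if_true] at h0
  have h1 : (1 : ℝ) / ((l : ℝ) + 1) = 1 / ((m : ℝ) + 1) := by linarith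
  have h2 : ((l : ℝ) + 1) = ((m : ℝ) + 1) := by
    have := congrArg (fun t : ℝ => 1 / t) h1
    simpa using this
  have h3 : (l : ℝ) = (m : ℝ) := by linarith
  exact Fin.ext (by exact_mod_cast h3)

lemma ven_lower {K : ℕ} (l : Fin K) (x : EuclideanSpace ℝ (Fin 1 × Fin 3)) (hx : ‖x‖ < 1) :
    1 / 4 ≤ ven 0 (Rpos K l) x := by
  unfold ven
  have hx2 : ∑ c : Fin 3, (WithLp.ofLp x (0, c)) ^ 2 < 1 := by
    have h := EuclideanSpace.norm_sq_eq x
    rw [Fintype.sum_prod_type] at h
    simp only [Finset.univ_unique, Fin.default_eq_zero, Finset.sum_singleton, Real.norm_eq_abs,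
      sq_abs] at h
    have h3 : ‖x‖ ^ 2 < 1 := by nlinarith [norm_nonneg x]
    simpa using (h ▸ h3)
  rw [Fin.sum_univ_three] at hx2 ⊢
  simp only [Rpos, if_true, if_neg (by decide : ¬ (1 : Fin 3) = 0),
    if_neg (by decide : ¬ (2 : Fin 3) = 0), sub_zero]
  set t : ℝ := 1 / ((l : ℝ) + 1) with ht
  have ht0 : 0 < t := by positivity
  have ht1 : t ≤ 1 := by
    rw [ht, div_le_one (by positivity)]
    have : (0 : ℝ) ≤ (l : ℝ) := by positivity
    linarith
  set a := WithLp.ofLp x (0, (0 : Fin 3))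
  set b := WithLp.ofLp x (0, (1 : Fin 3))
  set c := WithLp.ofLp x (0, (2 : Fin 3))
  have ha : |a| < 1 := by
    rw [abs_lt]; constructor <;> nlinarith [sq_nonneg b, sq_nonneg c]
  rw [abs_lt] at ha
  have hpos : 0 < (a - (2 + t)) ^ 2 + b ^ 2 + c ^ 2 := by
    have : 0 < (a - (2 + t)) ^ 2 := by
      apply sq_pos_of_neg
      linarith [ha.2]
    positivity
  have hle : (a - (2 + t)) ^ 2 + b ^ 2 + c ^ 2 ≤ 4 ^ 2 := by
    nlinarith [sq_nonneg b, sq_nonneg c, ha.1, ha.2]
  have hsqrt : Real.sqrt ((a - (2 + t)) ^ 2 + b ^ 2 + c ^ 2) ≤ 4 := by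
    rw [Real.sqrt_le_left (by norm_num)]
    exact hle
  apply one_div_le_one_div_of_le (Real.sqrt_pos.2 hpos) hsqrt

/-- For `κ > 0` the system is not stable for all couplings `α` with `α z = κ`. -/
theorem not_forall_stable {q : ℕ} (hq : 0 < q) {κ : ℝ} (hκ : 0 < κ) :
    ¬ ∀ α : ℝ, 0 < α → Stable q α (κ / α) := by
  intro hS
  obtain ⟨f, hf0, hfn⟩ := exists_bump (EuclideanSpace ℝ (Fin 1 × Fin 3))
  set T : ℝ := ∫ k, kinB (Finset.univ : Finset (Fin 1)) k * ‖𝓕 f k‖ ^ 2 with hT
  set n : ℝ := ∫ x, ‖f x‖ ^ 2 with hn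
  obtain ⟨K, hK⟩ : ∃ K : ℕ, (T + 1) / (κ * (n / 4)) < K := exists_nat_gt _
  have hK' : T + 1 < K * (κ * (n / 4)) := by
    rwa [div_lt_iff₀ (by positivity)] at hK
  -- the state
  let ψ : (Fin 1 → Fin q) → 𝓢(EuclideanSpace ℝ (Fin 1 × Fin 3), ℂ) := fun _ => f
  have hψ : Antisym ψ := by
    intro π' σ x
    have : π' = 1 := Subsingleton.elim _ _
    subst this
    simp only [Equiv.Perm.coe_one, id, Equiv.Perm.sign_one, Units.val_one, Int.cast_one, one_mul,
      ψ]
  set U := unn (Rpos K) with hU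
  -- choose a large coupling
  set α : ℝ := κ ^ 2 * |U| * n + 1 with hα
  have hα0 : 0 < α := by positivity
  have h := hS α hα0 1 K (Rpos K) (Rpos_injective K) ψ hψ
  unfold formB at h
  simp only [ψ, Finset.sum_const, nsmul_eq_mul] at h
  have hcard : (0 : ℝ) < ((Finset.univ : Finset (Fin 1 → Fin q)).card : ℝ) := by
    have : 0 < (Finset.univ : Finset (Fin 1 → Fin q)).card := by
      rw [Finset.card_univ]
      have : Nonempty (Fin q) := ⟨⟨0, hq⟩⟩
      exact Fintype.card_pos
    exact_mod_cast this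
  have h1 : 0 ≤ T + α * ∫ x, potB Finset.univ (κ / α) (Rpos K) x * ‖f x‖ ^ 2 := by
    have h2 : 0 ≤ ((Finset.univ : Finset (Fin 1 → Fin q)).card : ℝ) *
      (T + α * ∫ x, potB Finset.univ (κ / α) (Rpos K) x * ‖f x‖ ^ 2) := by
      calc (0:ℝ) ≤ _ := h
        _ = _ := by rw [hT]; ring
    exact nonneg_of_mul_nonneg_right h2 hcard
  -- upper bound for the potential energy
  have hbound : ∫ x, potB Finset.univ (κ / α) (Rpos K) x * ‖f x‖ ^ 2 ≤
      ∫ x, (-(κ / α) * (K * (1 / 4)) + (κ / α) ^ 2 * U) * ‖f x‖ ^ 2 := by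
    refine integral_mono (integrable_potB _ _ _ f) ((integrable_norm_sq f).const_mul _) ?_
    intro x
    by_cases hx : ‖x‖ < 1
    · have hv : (K : ℝ) * (1 / 4) ≤ ∑ l, ven 0 (Rpos K l) x := by
        calc (K : ℝ) * (1 / 4) = ∑ l : Fin K, (1 / 4 : ℝ) := by simp
          _ ≤ _ := Finset.sum_le_sum fun l _ => ven_lower l x hx
      have hp : potB Finset.univ (κ / α) (Rpos K) x ≤
          -(κ / α) * (K * (1 / 4)) + (κ / α) ^ 2 * U := by
        unfold potB
        simp only [Finset.univ_unique, Fin.default_eq_zero, Finset.sum_singleton, lt_self_iff_false,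
          if_false]
        have : κ / α * (K * (1 / 4)) ≤ κ / α * ∑ l, ven 0 (Rpos K l) x := by
          have : 0 < κ / α := by positivity
          gcongr
        linarith
      exact mul_le_mul_of_nonneg_right hp (by positivity)
    · have : f x = 0 := hf0 x (not_lt.1 hx)
      simp [this]
  rw [integral_const_mul, ← hn] at hbound
  have h3 : 0 ≤ T + α * ((-(κ / α) * (K * (1 / 4)) + (κ / α) ^ 2 * U) * n) := by
    have := mul_le_mul_of_nonneg_left hbound hα0.le
    linarith
  have h4 : α * ((-(κ / α) * (K * (1 / 4)) + (κ / α) ^ 2 * U) * n) =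
      - (K * (κ * (n / 4))) + κ ^ 2 * U * n / α := by
    field_simp
  rw [h4] at h3
  have h5 : κ ^ 2 * U * n / α ≤ 1 := by
    rw [div_le_one hα0, hα]
    have : κ ^ 2 * U * n ≤ κ ^ 2 * |U| * n := by
      gcongr
      exact le_abs_self U
    linarith
  linarith

/-- The set of stable couplings at fixed `κ = α z` is an initial segment of `(0, ∞)` which is
bounded above. -/
theorem threshold {q : ℕ} (hq : 0 < q) {κ : ℝ} (hκ : 0 < κ) :
    ∃ a : ℝ, ∀ α : ℝ, 0 < α → α ≠ a → (Stable q α (κ / α) ↔ α < a) := by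
  have hmono : ∀ α α' : ℝ, 0 < α' → α' ≤ α → Stable q α (κ / α) → Stable q α' (κ / α') := by
    intro α α' hα' hle hS
    have hα : 0 < α := lt_of_lt_of_le hα' hle
    have h := stable_mono (p := α' / α) (by positivity) (by rw [div_le_one hα]; exact hle) hS
    have e1 : α' / α * α = α' := by field_simp
    have e2 : κ / α / (α' / α) = κ / α' := by field_simp
    rwa [e1, e2] at h
  have hex : ∃ b : ℝ, 0 < b ∧ ¬ Stable q b (κ / b) := by
    have := not_forall_stable hq hκ
    push Not at this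
    exact this
  obtain ⟨b, hb0, hb⟩ := hex
  have hbdd : ∀ α : ℝ, 0 < α → Stable q α (κ / α) → α ≤ b := by
    intro α hα hS
    by_contra hlt
    exact hb (hmono α b hb0 (not_le.1 hlt).le hS)
  set S : Set ℝ := {α | 0 < α ∧ Stable q α (κ / α)} with hSdef
  have hSb : BddAbove S := ⟨b, fun α hα => hbdd α hα.1 hα.2⟩
  refine ⟨sSup S, fun α hα hne => ⟨fun h => ?_, fun h => ?_⟩⟩
  · exact lt_of_le_of_ne (le_csSup hSb ⟨hα, h⟩) hne
  · by_cases hem : S.Nonempty
    · obtain ⟨s, hs, hlt⟩ := exists_lt_of_lt_csSup hem h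
      exact hmono s α hα hlt.le hs.2
    · rw [Set.not_nonempty_iff_eq_empty] at hem
      rw [hem, Real.sSup_empty] at h
      exact absurd h (not_lt.2 hα.le)

end Pool.Agent.H96
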