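import Mathlib

set_option autoImplicit false
open MeasureTheory ProbabilityTheory Measure
open scoped ENNReal

namespace Pool.Agent.H96

/-- Shifting an exponential variable by one increases its law at most by the factor `exp r`. -/
theorem expMeasure_map_add_le {r : ℝ} (_hr : 0 < r) :
    (expMeasure r).map (fun x => x + 1) ≤ ENNReal.ofReal (Real.exp r) • expMeasure r := by
  have hpdf : ∀ y : ℝ, exponentialPDF r (y - 1) ≤ ENNReal.ofReal (Real.exp r) *
      exponentialPDF r y := by
    intro y
    by_cases hy : y - 1 < 0
    · rw [exponentialPDF_of_neg hy]; exact bot_le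
    · push Not at hy
      rw [exponentialPDF_of_nonneg hy, exponentialPDF_of_nonneg (by linarith : (0:ℝ) ≤ y),
        ← ENNReal.ofReal_mul (by positivity)]
      apply ENNReal.ofReal_le_ofReal
      rw [show -(r * (y - 1)) = r + -(r * y) by ring, Real.exp_add]
      apply le_of_eq; ring
  have hmeas : Measurable (exponentialPDF r) :=
    (measurable_exponentialPDFReal r).ennreal_ofReal
  have hexp : expMeasure r = volume.withDensity (exponentialPDF r) := rfl
  refine Measure.le_iff.2 fun B hB => ?_
  rw [Measure.map_apply (by fun_prop) hB, hexp, Measure.smul_apply, withDensity_apply _ hB,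
    withDensity_apply _ (by
      exact (measurable_id.add_const 1) hB : MeasurableSet ((fun x : ℝ => x + 1) ⁻¹' B))]
  have h1 : ∫⁻ x in (fun x : ℝ => x + 1) ⁻¹' B, exponentialPDF r x =
      ∫⁻ y in B, exponentialPDF r (y - 1) := by
    have hmp := measurePreserving_add_right (volume : Measure ℝ) 1
    have := hmp.setLIntegral_comp_preimage hB (f := fun y => exponentialPDF r (y - 1))
      (hmeas.comp (by fun_prop))
    simpa using this
  rw [h1, smul_eq_mul, ← lintegral_const_mul _ hmeas]
  exact lintegral_mono fun y => hpdf y

section product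
variable {ι : Type*} [DecidableEq ι] (ν : ι → Measure ℝ) [∀ i, IsProbabilityMeasure (ν i)]

lemma measurable_upd (i : ι) :
    Measurable (fun p : ℝ × (ι → ℝ) => Function.update p.2 i p.1) := by
  refine measurable_pi_lambda _ fun j => ?_
  by_cases h : j = i
  · subst h; simpa using measurable_fst
  · simp only [Function.update_of_ne h]
    exact (measurable_pi_apply j).comp measurable_snd

/-- Resampling one coordinate does not change a product measure. -/
theorem infinitePi_resample (i : ι) :
    ((ν i).prod (infinitePi ν)).map (fun p : ℝ × (ι → ℝ) => Function.update p.2 i p.1) =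
      infinitePi ν := by
  apply eq_infinitePi
  intro s t ht
  have hbox : MeasurableSet (Set.pi (s : Set ι) t) :=
    MeasurableSet.pi s.countable_toSet fun i _ => ht i
  rw [Measure.map_apply (measurable_upd i) hbox]
  by_cases hi : i ∈ s
  · have hset : (fun p : ℝ × (ι → ℝ) => Function.update p.2 i p.1) ⁻¹' (Set.pi (s : Set ι) t) =
        (t i) ×ˢ (Set.pi ((s.erase i : Finset ι) : Set ι) t) := by
      ext ⟨a, y⟩
      simp only [Set.mem_preimage, Set.mem_pi, Set.mem_prod, Finset.mem_coe, Finset.mem_erase]
      constructor
      · intro h
        refine ⟨by simpa using h i hi, fun j hj => ?_⟩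
        have := h j hj.2
        rwa [Function.update_of_ne hj.1] at this
      · rintro ⟨h1, h2⟩ j hj
        by_cases hji : j = i
        · subst hji; simpa using h1
        · rw [Function.update_of_ne hji]; exact h2 j ⟨hji, hj⟩
    rw [hset, Measure.prod_prod, infinitePi_pi ν fun i _ => ht i]
    exact Finset.mul_prod_erase s (fun i => ν i (t i)) hi
  · have hset : (fun p : ℝ × (ι → ℝ) => Function.update p.2 i p.1) ⁻¹' (Set.pi (s : Set ι) t) =
        Set.univ ×ˢ (Set.pi (s : Set ι) t) := by
      ext ⟨a, y⟩
      simp only [Set.mem_preimage, Set.mem_pi, Set.mem_prod, Finset.mem_coe, Set.mem_univ,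
        true_and]
      refine forall₂_congr fun j hj => ?_
      have hji : j ≠ i := by rintro rfl; exact hi hj
      rw [Function.update_of_ne hji]
    rw [hset, Measure.prod_prod, infinitePi_pi ν fun i _ => ht i]
    simp

variable {r : ι → ℝ} (hr : ∀ i, 0 < r i) (hν : ∀ i, ν i = expMeasure (r i))

include hr hν in
theorem infinitePi_shift_one (i : ι) :
    (infinitePi ν).map (fun x => Function.update x i (x i + 1)) ≤
      ENNReal.ofReal (Real.exp (r i)) • infinitePi ν := by
  have hmeas1 : Measurable (fun x : ι → ℝ => Function.update x i (x i + 1)) := by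
    refine measurable_pi_lambda _ fun j => ?_
    by_cases h : j = i
    · subst h; simpa using (measurable_pi_apply j).add_const 1
    · simp only [Function.update_of_ne h]
      exact measurable_pi_apply j
  have hle : ((ν i).map (fun x => x + 1)) ≤ ENNReal.ofReal (Real.exp (r i)) • ν i := by
    rw [hν i]; exact expMeasure_map_add_le (hr i)
  refine Measure.le_iff.2 fun B hB => ?_
  rw [Measure.map_apply hmeas1 hB]
  conv_lhs => rw [← infinitePi_resample ν i]
  rw [Measure.map_apply (measurable_upd i) (hmeas1 hB)]
  have hset : (fun p : ℝ × (ι → ℝ) => Function.update p.2 i p.1) ⁻¹'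
      ((fun x : ι → ℝ => Function.update x i (x i + 1)) ⁻¹' B) =
      (Prod.map (fun x : ℝ => x + 1) id) ⁻¹'
        ((fun p : ℝ × (ι → ℝ) => Function.update p.2 i p.1) ⁻¹' B) := by
    ext ⟨a, y⟩
    simp
  have hm : MeasurableSet ((fun p : ℝ × (ι → ℝ) => Function.update p.2 i p.1) ⁻¹' B) :=
    measurable_upd i hB
  have hadd : Measurable (fun x : ℝ => x + 1) := by fun_prop
  rw [hset, ← Measure.map_apply (hadd.prodMap measurable_id) hm]
  have hprod : ((ν i).prod (infinitePi ν)).map (Prod.map (fun x : ℝ => x + 1) id) =
      ((ν i).map (fun x => x + 1)).prod (infinitePi ν) := by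
    have := Measure.map_prod_map (ν i) (infinitePi ν) hadd measurable_id
    rw [Measure.map_id] at this
    exact this.symm
  rw [hprod]
  have hle2 : ((ν i).map (fun x => x + 1)).prod (infinitePi ν) ≤
      ENNReal.ofReal (Real.exp (r i)) • ((ν i).prod (infinitePi ν)) := by
    rw [← Measure.prod_smul_left]
    refine Measure.le_iff.2 fun S hS => ?_
    have : IsFiniteMeasure ((ν i).map (fun x : ℝ => x + 1)) := inferInstance
    rw [Measure.prod_apply_symm hS, Measure.prod_apply_symm hS]
    exact lintegral_mono fun y => hle _
  refine (hle2 _).trans ?_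
  rw [Measure.smul_apply, Measure.smul_apply]
  conv_rhs => rw [← infinitePi_resample ν i]
  rw [Measure.map_apply (measurable_upd i) hB]

/-- Shift of finitely many coordinates by one. -/
def shiftF (F : Finset ι) (x : ι → ℝ) : ι → ℝ := fun e => if e ∈ F then x e + 1 else x e

lemma measurable_shiftF (F : Finset ι) : Measurable (shiftF F) := by
  refine measurable_pi_lambda _ fun j => ?_
  unfold shiftF
  by_cases h : j ∈ F
  · simp only [h, if_true]
    exact (measurable_pi_apply (X := fun _ : ι => ℝ) j).add_const 1
  · simpa [h] using measurable_pi_apply j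

include hr hν in
theorem infinitePi_shift_finset (F : Finset ι) :
    (infinitePi ν).map (shiftF F) ≤
      (∏ i ∈ F, ENNReal.ofReal (Real.exp (r i))) • infinitePi ν := by
  induction F using Finset.induction_on with
  | empty =>
    have : (shiftF (∅ : Finset ι) : (ι → ℝ) → (ι → ℝ)) = id := by
      funext x e; simp [shiftF]
    rw [this, Measure.map_id]; simp
  | insert a F ha ih =>
    have hcomp : (shiftF (insert a F) : (ι → ℝ) → (ι → ℝ)) =
        shiftF F ∘ (fun x => Function.update x a (x a + 1)) := by
      funext x e
      simp only [shiftF, Function.comp, Finset.mem_insert]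
      by_cases hea : e = a
      · subst hea; simp [ha]
      · simp [hea]
    have hmeas1 : Measurable (fun x : ι → ℝ => Function.update x a (x a + 1)) := by
      refine measurable_pi_lambda _ fun j => ?_
      by_cases h : j = a
      · subst h; simpa using (measurable_pi_apply j).add_const 1
      · simp only [Function.update_of_ne h]
        exact measurable_pi_apply j
    rw [hcomp, ← Measure.map_map (measurable_shiftF F) hmeas1]
    have h1 : ((infinitePi ν).map (fun x => Function.update x a (x a + 1))).map (shiftF F) ≤
        (ENNReal.ofReal (Real.exp (r a)) • infinitePi ν).map (shiftF F) :=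
      Measure.map_mono (infinitePi_shift_one ν hr hν a) (measurable_shiftF F)
    refine h1.trans ?_
    rw [Measure.map_smul, Finset.prod_insert ha, mul_smul]
    refine Measure.le_iff.2 fun B hB => ?_
    rw [Measure.smul_apply, Measure.smul_apply]
    gcongr

end product

end Pool.Agent.H96
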