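import Mathlib

/-!
# Weighted first passage percolation on `ℤ^d`: definitions

Exponential first passage percolation on `ℤ^d` with edge rates `f(m_e)`, where `m_e` is the
midpoint of the edge `e` and `f(z) = |z|^α f₀(z/|z|)`.
-/

set_option autoImplicit false

open MeasureTheory ProbabilityTheory Filter Topology Set
open scoped ENNReal Pointwise

namespace Pool.Agent.H96.WFPP

/-! ### Definitions -/

/-- `ℝ^d` with the Euclidean norm. -/
abbrev E (d : ℕ) := EuclideanSpace ℝ (Fin d)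

/-- The nearest-neighbour graph of `ℤ^d`: `x ~ y` iff `∑ |x_i - y_i| = 1`. -/
def latticeGraph (d : ℕ) : SimpleGraph (Fin d → ℤ) where
  Adj x y := ∑ i, |x i - y i| = 1
  symm := ⟨fun x y h => by simpa only [abs_sub_comm] using h⟩
  loopless := ⟨fun x h => by simp at h⟩

/-- The point of `ℝ^d` given by a lattice point. -/
noncomputable def toE {d : ℕ} (v : Fin d → ℤ) : E d := WithLp.toLp 2 (fun i => (v i : ℝ))

/-- The midpoint of an (unordered) pair of lattice points. -/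
noncomputable def mid {d : ℕ} (e : Sym2 (Fin d → ℤ)) : E d :=
  Sym2.lift ⟨fun x y => (1 / 2 : ℝ) • (toE x + toE y), fun x y => by
    change (1 / 2 : ℝ) • (toE x + toE y) = (1 / 2 : ℝ) • (toE y + toE x); rw [add_comm]⟩ e

/-- The weight `f(z) = |z|^α f₀(z/|z|)`. -/
noncomputable def wfun {d : ℕ} (α : ℝ) (f₀ : E d → ℝ) (z : E d) : ℝ :=
  ‖z‖ ^ α * f₀ (‖z‖⁻¹ • z)

/-- `X` is a family of independent edge times, `X e` exponential with rate `f(m_e)`. -/
def IsModel {d : ℕ} {Ω : Type*} [MeasurableSpace Ω] (P : Measure Ω) (α : ℝ) (f₀ : E d → ℝ)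
    (X : (latticeGraph d).edgeSet → Ω → ℝ) : Prop :=
  (∀ e, Measurable (X e)) ∧ iIndepFun X P ∧
    ∀ e : (latticeGraph d).edgeSet, P.map (X e) = expMeasure (wfun α f₀ (mid e.1))

/-- The passage time `T(0,v)` for the edge times `x`: the infimum over lattice paths from `0` to
`v` of the sum of the edge times. -/
noncomputable def passage {d : ℕ} (x : (latticeGraph d).edgeSet → ℝ) (v : Fin d → ℤ) : ℝ≥0∞ :=
  ⨅ p : (latticeGraph d).Walk 0 v,
    (p.edges.attach.map fun e => ENNReal.ofReal (x ⟨e.1, p.edges_subset_edgeSet e.2⟩)).sum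

/-- The cluster `A_t = V_t + [-1/2,1/2]^d`, `V_t = {v : T(0,v) ≤ t}`. -/
def cluster {d : ℕ} (x : (latticeGraph d).edgeSet → ℝ) (t : ℝ) : Set (E d) :=
  {z | ∃ v : Fin d → ℤ, passage x v ≤ ENNReal.ofReal t ∧ ∀ i, |z i - (v i : ℝ)| ≤ 1 / 2}

/-- The `D`-length of a segment, `∫ f(γ(t))⁻¹ dt` over the segment from `p` to `q` parametrised
by `N`-length (written after the affine change of variables to `[0,1]`). -/
noncomputable def segLen {d : ℕ} (N : Seminorm ℝ (E d)) (f : E d → ℝ) (p q : E d) : ℝ≥0∞ :=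
  ∫⁻ s in Icc (0 : ℝ) 1, ENNReal.ofReal (N (q - p) / f (p + s • (q - p)))

/-- The `D`-length of the polygonal path through the points of a list. -/
noncomputable def chainLen {d : ℕ} (N : Seminorm ℝ (E d)) (f : E d → ℝ) : List (E d) → ℝ≥0∞
  | [] => 0
  | [_] => 0
  | p :: q :: l => segLen N f p q + chainLen N f (q :: l)

/-- The metric `D(z,w)`: infimum of the `D`-length over piecewise linear paths from `z` to `w`. -/
noncomputable def Dmet {d : ℕ} (N : Seminorm ℝ (E d)) (f : E d → ℝ) (z w : E d) : ℝ≥0∞ :=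
  ⨅ l : List (E d), chainLen N f (z :: (l ++ [w]))

/-- The limit shape `𝔹 = {z : D(0,z) ≤ 1}`. -/
def shapeB {d : ℕ} (N : Seminorm ℝ (E d)) (f : E d → ℝ) : Set (E d) := {z | Dmet N f 0 z ≤ 1}

/-- The event `E(χ,t₀)`. -/
def goodEvent {d : ℕ} {Ω : Type*} (N : Seminorm ℝ (E d)) (α : ℝ) (f₀ : E d → ℝ)
    (X : (latticeGraph d).edgeSet → Ω → ℝ) (χ t₀ : ℝ) : Set Ω :=
  {ω | ∀ t : ℝ, t₀ ≤ t →
    ((1 - t ^ (-χ)) * t ^ (1 / (1 - α))) • shapeB N (wfun α f₀) ⊆ cluster (fun e => X e ω) t ∧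
    cluster (fun e => X e ω) t ⊆ ((1 + t ^ (-χ)) * t ^ (1 / (1 - α))) • shapeB N (wfun α f₀)}

/-- Rate `χ` holds. -/
def RateHolds {d : ℕ} {Ω : Type*} [MeasurableSpace Ω] (P : Measure Ω) (N : Seminorm ℝ (E d))
    (α : ℝ) (f₀ : E d → ℝ) (X : (latticeGraph d).edgeSet → Ω → ℝ) (χ : ℝ) : Prop :=
  ∀ s : ℝ, 0 < s → Tendsto (fun t₀ : ℝ => t₀ ^ s * (1 - P.real (goodEvent N α f₀ X χ t₀)))
    atTop (𝓝 0)

end Pool.Agent.H96.WFPP
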