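import Mathlib
import Pool.Agent.H96.ShiftExp
import Pool.Agent.H96.WFPPDefs

/-!
# Weighted first passage percolation: no rate above one (proofs)
-/

set_option autoImplicit false
set_option linter.unusedSectionVars false

open MeasureTheory ProbabilityTheory Filter Topology Set
open scoped ENNReal Pointwise

namespace Pool.Agent.H96.WFPP

/-! ### The deterministic shift -/

section shift
variable {d : ℕ}

instance : Countable (latticeGraph d).edgeSet := inferInstance

lemma countable_walk (u v : Fin d → ℤ) : Countable ((latticeGraph d).Walk u v) := by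
  have : Function.Injective (fun p : (latticeGraph d).Walk u v => p.support) :=
    fun p q h => SimpleGraph.Walk.ext_support h
  exact this.countable

/-- The sum of edge times over a list of edges of the graph. -/
lemma measurable_passage (v : Fin d → ℤ) :
    Measurable (fun x : (latticeGraph d).edgeSet → ℝ => passage x v) := by
  have := countable_walk (0 : Fin d → ℤ) v
  unfold passage
  refine Measurable.iInf fun p => ?_
  have : ∀ (l : List {e // e ∈ p.edges}), Measurable (fun x : (latticeGraph d).edgeSet → ℝ =>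
      (l.map fun e => ENNReal.ofReal (x ⟨e.1, p.edges_subset_edgeSet e.2⟩)).sum) := by
    intro l
    induction l with
    | nil => simp
    | cons a l ih =>
      simp only [List.map_cons, List.sum_cons]
      exact (ENNReal.measurable_ofReal.comp (measurable_pi_apply _)).add ih
  exact this _

lemma measurableSet_mem_cluster (z : E d) (t : ℝ) :
    MeasurableSet {x : (latticeGraph d).edgeSet → ℝ | z ∈ cluster x t} := by
  have hset : {x : (latticeGraph d).edgeSet → ℝ | z ∈ cluster x t} =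
      ⋃ v : Fin d → ℤ, {x | passage x v ≤ ENNReal.ofReal t ∧ ∀ i, |z i - (v i : ℝ)| ≤ 1 / 2} := by
    ext x; simp [cluster]
  rw [hset]
  refine MeasurableSet.iUnion fun v => ?_
  by_cases h : ∀ i, |z i - (v i : ℝ)| ≤ 1 / 2
  · have : {x : (latticeGraph d).edgeSet → ℝ | passage x v ≤ ENNReal.ofReal t ∧
        ∀ i, |z i - (v i : ℝ)| ≤ 1 / 2} =
        (fun x => passage x v) ⁻¹' Iic (ENNReal.ofReal t) := by
      ext x
      exact ⟨fun h2 => h2.1, fun h2 => ⟨h2, h⟩⟩
    rw [this]
    exact measurable_passage v measurableSet_Iic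
  · have : {x : (latticeGraph d).edgeSet → ℝ | passage x v ≤ ENNReal.ofReal t ∧
        ∀ i, |z i - (v i : ℝ)| ≤ 1 / 2} = ∅ := by
      ext x
      simp only [mem_empty_iff_false, iff_false]
      rintro ⟨_, h2⟩
      exact h h2
    rw [this]
    exact MeasurableSet.empty

/-- The edges at the origin. -/
def originEdges (d : ℕ) : Set (latticeGraph d).edgeSet := {e | (0 : Fin d → ℤ) ∈ e.1}

lemma finite_neighbors : {y : Fin d → ℤ | (latticeGraph d).Adj 0 y}.Finite := by
  have hsub : {y : Fin d → ℤ | (latticeGraph d).Adj 0 y} ⊆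
      Set.pi Set.univ (fun _ : Fin d => Set.Icc (-1 : ℤ) 1) := by
    intro y hy i _
    have h : ∑ j, |(0 : Fin d → ℤ) j - y j| = 1 := hy
    have h1 : |y i| ≤ 1 := by
      have := Finset.single_le_sum (f := fun j => |(0 : Fin d → ℤ) j - y j|)
        (fun j _ => abs_nonneg _) (Finset.mem_univ i)
      rw [h] at this
      simpa using this
    exact abs_le.1 h1
  exact (Set.Finite.pi' fun _ => Set.finite_Icc _ _).subset (by
    intro y hy i; exact hsub hy i (Set.mem_univ i))

lemma finite_originEdges : (originEdges d).Finite := by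
  have h := (finite_neighbors (d := d)).image (fun y => s((0 : Fin d → ℤ), y))
  have hinj : Function.Injective (Subtype.val : (latticeGraph d).edgeSet → Sym2 (Fin d → ℤ)) :=
    Subtype.val_injective
  refine (Set.Finite.preimage hinj.injOn h).subset ?_
  rintro ⟨e, he⟩ h0
  have h0' : (0 : Fin d → ℤ) ∈ e := h0
  obtain ⟨y, rfl⟩ := Sym2.mem_iff_exists.1 h0'
  exact ⟨y, he, rfl⟩

/-- Shifting the edge times at the origin by one delays every nonzero vertex by one. -/
lemma passage_shift (F : Finset (latticeGraph d).edgeSet) (hF : ∀ e, e ∈ F ↔ e ∈ originEdges d)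
    [DecidableEq (latticeGraph d).edgeSet]
    (x : (latticeGraph d).edgeSet → ℝ) (hx : ∀ e, 0 ≤ x e) (v : Fin d → ℤ) (hv : v ≠ 0) :
    passage x v + 1 ≤ passage (Pool.Agent.H96.shiftF F x) v := by
  unfold passage
  refine le_iInf fun p => ?_
  refine (add_le_add_left (iInf_le _ p) 1).trans ?_
  -- termwise comparison
  have hterm : ∀ e : (latticeGraph d).edgeSet,
      ENNReal.ofReal (x e) ≤ ENNReal.ofReal (Pool.Agent.H96.shiftF F x e) := by
    intro e
    apply ENNReal.ofReal_le_ofReal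
    unfold Pool.Agent.H96.shiftF
    split_ifs <;> linarith
  cases p with
  | nil => exact absurd rfl hv
  | cons h q =>
    rename_i w
    have hmem : s((0 : Fin d → ℤ), w) ∈ (latticeGraph d).edgeSet := h
    have hgen : ∀ (y : (latticeGraph d).edgeSet → ℝ) (l : List (Sym2 (Fin d → ℤ)))
        (hl : ∀ e ∈ l, e ∈ (latticeGraph d).edgeSet),
        (l.attach.map fun e => ENNReal.ofReal (y ⟨e.1, hl e.1 e.2⟩)).sum =
        (l.pmap (fun e he => ENNReal.ofReal (y ⟨e, he⟩)) hl).sum := by
      intro y l hl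
      congr 1
      rw [List.pmap_eq_map_attach]
    have hL := hgen x (SimpleGraph.Walk.cons h q).edges
      (fun e he => (SimpleGraph.Walk.cons h q).edges_subset_edgeSet he)
    have hR := hgen (Pool.Agent.H96.shiftF F x) (SimpleGraph.Walk.cons h q).edges
      (fun e he => (SimpleGraph.Walk.cons h q).edges_subset_edgeSet he)
    rw [hL, hR]
    have hpm : ∀ (l : List (Sym2 (Fin d → ℤ))) (hl : ∀ e ∈ l, e ∈ (latticeGraph d).edgeSet),
        (l.pmap (fun e he => ENNReal.ofReal (x ⟨e, he⟩)) hl).sum ≤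
        (l.pmap (fun e he => ENNReal.ofReal (Pool.Agent.H96.shiftF F x ⟨e, he⟩)) hl).sum := by
      intro l
      induction l with
      | nil => intro _; simp
      | cons a l ih =>
        intro hl
        simp only [List.pmap, List.sum_cons]
        exact add_le_add (hterm _) (ih _)
    simp only [SimpleGraph.Walk.edges_cons, List.pmap, List.sum_cons]
    have h1 : ENNReal.ofReal (Pool.Agent.H96.shiftF F x ⟨s(0, w), hmem⟩) =
        ENNReal.ofReal (x ⟨s(0, w), hmem⟩) + 1 := by
      have : (⟨s(0, w), hmem⟩ : (latticeGraph d).edgeSet) ∈ F := by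
        rw [hF]
        show (0 : Fin d → ℤ) ∈ s((0 : Fin d → ℤ), w)
        simp
      unfold Pool.Agent.H96.shiftF
      rw [if_pos this, ENNReal.ofReal_add (hx _) one_pos.le, ENNReal.ofReal_one]
    rw [h1, add_assoc, add_comm _ (1 : ℝ≥0∞), ← add_assoc]
    gcongr
    exact hpm _ _

lemma cluster_shift (F : Finset (latticeGraph d).edgeSet) (hF : ∀ e, e ∈ F ↔ e ∈ originEdges d)
    [DecidableEq (latticeGraph d).edgeSet]
    (x : (latticeGraph d).edgeSet → ℝ) (hx : ∀ e, 0 ≤ x e) {t : ℝ} (ht : 0 ≤ t) :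
    cluster (Pool.Agent.H96.shiftF F x) (t + 1) ⊆ cluster x t := by
  rintro z ⟨v, hv, hz⟩
  refine ⟨v, ?_, hz⟩
  by_cases h0 : v = 0
  · subst h0
    refine (iInf_le _ SimpleGraph.Walk.nil).trans ?_
    simp
  · have h1 := (passage_shift F hF x hx v h0).trans hv
    rw [ENNReal.ofReal_add ht one_pos.le, ENNReal.ofReal_one] at h1
    exact (ENNReal.add_le_add_iff_right ENNReal.one_ne_top).1 h1

end shift

/-! ### The metric `D` -/

section geometry
variable {d : ℕ} (N : Seminorm ℝ (E d)) {α : ℝ} {f₀ : E d → ℝ}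

lemma wfun_smul (α : ℝ) (f₀ : E d → ℝ) {c : ℝ} (hc : 0 < c) (z : E d) :
    wfun α f₀ (c • z) = c ^ α * wfun α f₀ z := by
  unfold wfun
  rw [norm_smul, Real.norm_of_nonneg hc.le, Real.mul_rpow hc.le (norm_nonneg _), mul_inv,
    smul_smul]
  have : c⁻¹ * ‖z‖⁻¹ * c = ‖z‖⁻¹ := by field_simp
  rw [this]; ring

lemma segLen_smul {c : ℝ} (hc : 0 < c) (p q : E d) :
    segLen N (wfun α f₀) (c • p) (c • q) =
      ENNReal.ofReal (c ^ (1 - α)) * segLen N (wfun α f₀) p q := by
  unfold segLen
  rw [← lintegral_const_mul' _ _ ENNReal.ofReal_ne_top]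
  refine lintegral_congr fun s => ?_
  rw [← ENNReal.ofReal_mul (by positivity)]
  congr 1
  have h1 : c • p + s • (c • q - c • p) = c • (p + s • (q - p)) := by
    rw [← smul_sub, smul_comm s c, ← smul_add]
  have h2 : N (c • q - c • p) = c * N (q - p) := by
    rw [← smul_sub, map_smul_eq_mul, Real.norm_of_nonneg hc.le]
  rw [h1, h2, wfun_smul _ _ hc, Real.rpow_sub hc, Real.rpow_one]
  have hcα : c ^ α ≠ 0 := (Real.rpow_pos_of_pos hc _).ne'
  field_simp

lemma chainLen_smul {c : ℝ} (hc : 0 < c) (l : List (E d)) :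
    chainLen N (wfun α f₀) (l.map (c • ·)) =
      ENNReal.ofReal (c ^ (1 - α)) * chainLen N (wfun α f₀) l := by
  induction l with
  | nil => simp [chainLen]
  | cons p l ih =>
    cases l with
    | nil => simp [chainLen]
    | cons q l =>
      simp only [List.map_cons, chainLen] at ih ⊢
      rw [ih, segLen_smul N hc, mul_add]

lemma Dmet_smul {c : ℝ} (hc : 0 < c) (z : E d) :
    Dmet N (wfun α f₀) 0 (c • z) = ENNReal.ofReal (c ^ (1 - α)) * Dmet N (wfun α f₀) 0 z := by
  unfold Dmet
  rw [ENNReal.mul_iInf_of_ne (by positivity) ENNReal.ofReal_ne_top]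
  let e : List (E d) ≃ List (E d) :=
    { toFun := fun l => l.map (c • ·)
      invFun := fun l => l.map (c⁻¹ • ·)
      left_inv := fun l => by
        have : ((fun x : E d => c⁻¹ • x) ∘ fun x : E d => c • x) = id := by
          funext x; simp [smul_smul, hc.ne']
        change List.map _ (List.map _ l) = l
        rw [List.map_map, this, List.map_id]
      right_inv := fun l => by
        have : ((fun x : E d => c • x) ∘ fun x : E d => c⁻¹ • x) = id := by
          funext x; simp [smul_smul, hc.ne']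
        change List.map _ (List.map _ l) = l
        rw [List.map_map, this, List.map_id] }
  rw [← e.iInf_comp]
  refine iInf_congr fun l => ?_
  rw [← chainLen_smul N hc]
  simp [e]

lemma seg_origin_lt_top (hα : α < 1) (z : E d) :
    segLen N (wfun α f₀) 0 z < ⊤ := by
  unfold segLen
  have h1 : ∀ s : ℝ, s ∈ Ioc (0 : ℝ) 1 →
      N (z - 0) / wfun α f₀ (0 + s • (z - 0)) = s ^ (-α) * (N z / wfun α f₀ z) := by
    intro s hs
    rw [sub_zero, zero_add, wfun_smul _ _ hs.1, Real.rpow_neg hs.1.le]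
    have : s ^ α ≠ 0 := (Real.rpow_pos_of_pos hs.1 _).ne'
    field_simp
  have h2 : ∫⁻ s in Icc (0 : ℝ) 1, ENNReal.ofReal (N (z - 0) / wfun α f₀ (0 + s • (z - 0))) =
      ∫⁻ s in Ioc (0 : ℝ) 1, ENNReal.ofReal (N (z - 0) / wfun α f₀ (0 + s • (z - 0))) :=
    setLIntegral_congr Ioc_ae_eq_Icc.symm
  rw [h2, setLIntegral_congr_fun measurableSet_Ioc
    (fun s hs => congrArg ENNReal.ofReal (h1 s hs))]
  have h3 : IntegrableOn (fun s : ℝ => s ^ (-α) * (N z / wfun α f₀ z)) (Ioc 0 1) := by
    have := (intervalIntegral.intervalIntegrable_rpow' (a := 0) (b := 1)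
      (by linarith : -1 < -α)).1
    exact this.mul_const _
  exact h3.lintegral_lt_top

lemma Dmet_lt_top (hα : α < 1) (z : E d) : Dmet N (wfun α f₀) 0 z < ⊤ := by
  unfold Dmet
  refine (iInf_le _ ([] : List (E d))).trans_lt ?_
  simp only [List.nil_append, chainLen, add_zero]
  exact seg_origin_lt_top N hα z

/-- The clamped norm. -/
noncomputable def clampN (z : E d) : ℝ := max 1 (min 2 ‖z‖)

lemma clamp_le_measure (p q : E d) :
    ENNReal.ofReal |clampN q - clampN p| ≤
      ENNReal.ofReal ‖q - p‖ *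
        volume {s ∈ Icc (0 : ℝ) 1 | 1 ≤ ‖p + s • (q - p)‖ ∧ ‖p + s • (q - p)‖ ≤ 2} := by
  set h : ℝ → ℝ := fun s => ‖p + s • (q - p)‖ with hh
  set S : Set ℝ := {s ∈ Icc (0 : ℝ) 1 | 1 ≤ ‖p + s • (q - p)‖ ∧ ‖p + s • (q - p)‖ ≤ 2} with hS
  have hlip : LipschitzWith ‖q - p‖₊ h := by
    refine LipschitzWith.of_dist_le_mul fun s t => ?_
    rw [Real.dist_eq, hh]
    refine (abs_norm_sub_norm_le _ _).trans ?_
    have : p + s • (q - p) - (p + t • (q - p)) = (s - t) • (q - p) := by
      rw [sub_smul]; abel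
    rw [this, norm_smul, Real.dist_eq, Real.norm_eq_abs, coe_nnnorm, mul_comm]
  have hcont : Continuous h := hlip.continuous
  have h0 : h 0 = ‖p‖ := by simp [hh]
  have h1 : h 1 = ‖q‖ := by simp [hh]
  have hIVT : uIcc ‖p‖ ‖q‖ ⊆ h '' Icc 0 1 := by
    have := intermediate_value_uIcc (f := h) (a := 0) (b := 1) hcont.continuousOn
    rw [h0, h1, uIcc_of_le zero_le_one] at this
    exact this
  have hsub : uIcc (clampN p) (clampN q) ⊆ h '' S ∪ {clampN p} := by
    intro v hv
    by_cases hvp : v = clampN p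
    · right; exact hvp
    left
    have hv12 : 1 ≤ v ∧ v ≤ 2 := by
      have hp1 : 1 ≤ clampN p := le_max_left _ _
      have hq1 : 1 ≤ clampN q := le_max_left _ _
      have hp2 : clampN p ≤ 2 := max_le (by norm_num) (min_le_left _ _)
      have hq2 : clampN q ≤ 2 := max_le (by norm_num) (min_le_left _ _)
      rw [mem_uIcc] at hv
      rcases hv with hv | hv
      · exact ⟨hp1.trans hv.1, hv.2.trans hq2⟩
      · exact ⟨hq1.trans hv.1, hv.2.trans hp2⟩
    have hvmem : v ∈ uIcc ‖p‖ ‖q‖ := by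
      rw [mem_uIcc] at hv ⊢
      rcases hv with hv | hv
      · have hlt : clampN p < v := lt_of_le_of_ne hv.1 (Ne.symm hvp)
        left
        constructor
        · have : ‖p‖ < v := by
            by_contra hcon
            push Not at hcon
            have : v ≤ clampN p := le_max_of_le_right (le_min hv12.2 hcon)
            linarith
          exact this.le
        · have h1v : 1 < v := lt_of_le_of_lt (le_max_left _ _) hlt
          by_contra hcon
          push Not at hcon
          have : clampN q < v := max_lt h1v (min_lt_of_right_lt hcon)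
          linarith [hv.2]
      · have hlt : v < clampN p := lt_of_le_of_ne hv.2 hvp
        right
        constructor
        · by_contra hcon
          push Not at hcon
          have : v < clampN q ∨ v = 2 := by
            rcases lt_or_eq_of_le hv12.2 with h | h
            · left; exact lt_max_of_lt_right (lt_min h hcon)
            · right; exact h
          rcases this with h | h
          · linarith [hv.1]
          · have hp2 : clampN p ≤ 2 := max_le (by norm_num) (min_le_left _ _)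
            linarith
        · by_contra hcon
          push Not at hcon
          have h2 : clampN p ≤ v := max_le hv12.1 ((min_le_right _ _).trans hcon.le)
          linarith
    obtain ⟨s, hs, rfl⟩ := hIVT hvmem
    exact ⟨s, ⟨hs, hv12⟩, rfl⟩
  have hvol : volume (h '' S) ≤ ENNReal.ofReal ‖q - p‖ * volume S := by
    have := (hlip.lipschitzOnWith (s := S)).hausdorffMeasure_image_le (d := 1) zero_le_one
    rw [MeasureTheory.hausdorffMeasure_real, ENNReal.rpow_one] at this
    have h2 : ENNReal.ofReal ‖q - p‖ = ((‖q - p‖₊ : NNReal) : ℝ≥0∞) := by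
      rw [ofReal_norm]; rfl
    rw [h2]
    exact this
  calc ENNReal.ofReal |clampN q - clampN p| = volume (uIcc (clampN p) (clampN q)) := by
        rw [Real.volume_interval]
    _ ≤ volume (h '' S ∪ {clampN p}) := measure_mono hsub
    _ ≤ volume (h '' S) + volume {clampN p} := measure_union_le _ _
    _ = volume (h '' S) := by simp
    _ ≤ _ := hvol

/-- Lower bound of the length of a segment. -/
lemma segLen_lower {m M : ℝ} (hm : 0 < m) (hM : 0 < M) (hN : ∀ x, m * ‖x‖ ≤ N x)
    (hpos : ∀ z ∈ Metric.sphere (0 : E d) 1, 0 < f₀ z)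
    (hf : ∀ z ∈ Metric.sphere (0 : E d) 1, f₀ z ≤ M) (p q : E d) :
    ENNReal.ofReal (m / (M * 2 ^ |α|)) * ENNReal.ofReal |clampN q - clampN p| ≤
      segLen N (wfun α f₀) p q := by
  set S : Set ℝ := {s ∈ Icc (0 : ℝ) 1 | 1 ≤ ‖p + s • (q - p)‖ ∧ ‖p + s • (q - p)‖ ≤ 2} with hS
  have hSmeas : MeasurableSet S := by
    have h1 : MeasurableSet {s : ℝ | 1 ≤ ‖p + s • (q - p)‖} :=
      measurableSet_le measurable_const (by fun_prop)
    have h2 : MeasurableSet {s : ℝ | ‖p + s • (q - p)‖ ≤ 2} :=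
      measurableSet_le (by fun_prop) measurable_const
    exact measurableSet_Icc.inter (h1.inter h2)
  have hSsub : S ⊆ Icc 0 1 := fun s hs => hs.1
  have h2α : (0 : ℝ) < 2 ^ |α| := Real.rpow_pos_of_pos two_pos _
  have hlow : ∀ s ∈ S, m / (M * 2 ^ |α|) * ‖q - p‖ ≤ N (q - p) / wfun α f₀ (p + s • (q - p)) := by
    intro s hs
    set x := p + s • (q - p) with hx
    have hx1 : 1 ≤ ‖x‖ := hs.2.1
    have hx2 : ‖x‖ ≤ 2 := hs.2.2
    have hx0 : 0 < ‖x‖ := by linarith
    have hsph : ‖x‖⁻¹ • x ∈ Metric.sphere (0 : E d) 1 := by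
      rw [mem_sphere_zero_iff_norm, norm_smul, norm_inv, norm_norm, inv_mul_cancel₀ hx0.ne']
    have hw : wfun α f₀ x ≤ 2 ^ |α| * M := by
      unfold wfun
      have h3 : ‖x‖ ^ α ≤ 2 ^ |α| :=
        (Real.rpow_le_rpow_of_exponent_le hx1 (le_abs_self α)).trans
          (Real.rpow_le_rpow hx0.le hx2 (abs_nonneg α))
      have h4 := hf _ hsph
      have h5 := (hpos _ hsph).le
      gcongr
    have hw0 : 0 < wfun α f₀ x := by
      unfold wfun
      have := hpos _ hsph
      positivity
    rw [div_mul_eq_mul_div, div_le_div_iff₀ (by positivity) hw0]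
    have h6 := hN (q - p)
    calc m * ‖q - p‖ * wfun α f₀ x ≤ N (q - p) * (2 ^ |α| * M) := by
          gcongr
      _ = N (q - p) * (M * 2 ^ |α|) := by ring
  unfold segLen
  calc ENNReal.ofReal (m / (M * 2 ^ |α|)) * ENNReal.ofReal |clampN q - clampN p|
      ≤ ENNReal.ofReal (m / (M * 2 ^ |α|)) * (ENNReal.ofReal ‖q - p‖ * volume S) := by
        gcongr
        exact clamp_le_measure p q
    _ = ENNReal.ofReal (m / (M * 2 ^ |α|) * ‖q - p‖) * volume S := by
        rw [ENNReal.ofReal_mul (by positivity), mul_assoc]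
    _ = ∫⁻ _ in S, ENNReal.ofReal (m / (M * 2 ^ |α|) * ‖q - p‖) := by
        rw [setLIntegral_const]
    _ ≤ ∫⁻ s in S, ENNReal.ofReal (N (q - p) / wfun α f₀ (p + s • (q - p))) :=
        setLIntegral_mono' hSmeas fun s hs => ENNReal.ofReal_le_ofReal (hlow s hs)
    _ ≤ _ := lintegral_mono_set hSsub

lemma chainLen_lower {m M : ℝ} (hm : 0 < m) (hM : 0 < M) (hN : ∀ x, m * ‖x‖ ≤ N x)
    (hpos : ∀ z ∈ Metric.sphere (0 : E d) 1, 0 < f₀ z)
    (hf : ∀ z ∈ Metric.sphere (0 : E d) 1, f₀ z ≤ M) (w : E d) (l : List (E d)) :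
    ∀ z : E d, ENNReal.ofReal (m / (M * 2 ^ |α|)) * ENNReal.ofReal |clampN w - clampN z| ≤
      chainLen N (wfun α f₀) (z :: (l ++ [w])) := by
  induction l with
  | nil =>
    intro z
    simp only [List.nil_append, chainLen, add_zero]
    exact segLen_lower N hm hM hN hpos hf z w
  | cons a l ih =>
    intro z
    simp only [List.cons_append, chainLen]
    have h1 := segLen_lower N (α := α) hm hM hN hpos hf z a
    have h2 := ih a
    refine le_trans ?_ (add_le_add h1 h2)
    rw [← mul_add]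
    gcongr
    rw [← ENNReal.ofReal_add (abs_nonneg _) (abs_nonneg _)]
    apply ENNReal.ofReal_le_ofReal
    have : clampN w - clampN z = (clampN a - clampN z) + (clampN w - clampN a) := by ring
    rw [this]
    exact abs_add_le _ _

lemma Dmet_pos {m M : ℝ} (hm : 0 < m) (hM : 0 < M) (hN : ∀ x, m * ‖x‖ ≤ N x)
    (hpos : ∀ z ∈ Metric.sphere (0 : E d) 1, 0 < f₀ z)
    (hf : ∀ z ∈ Metric.sphere (0 : E d) 1, f₀ z ≤ M) (z : E d) (hz : ‖z‖ = 2) :
    0 < Dmet N (wfun α f₀) 0 z := by
  have h2α : (0 : ℝ) < 2 ^ |α| := Real.rpow_pos_of_pos two_pos _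
  have hc : (0 : ℝ≥0∞) < ENNReal.ofReal (m / (M * 2 ^ |α|)) := by
    rw [ENNReal.ofReal_pos]; positivity
  refine lt_of_lt_of_le hc ?_
  unfold Dmet
  refine le_iInf fun l => ?_
  refine le_trans ?_ (chainLen_lower N hm hM hN hpos hf z l 0)
  have h1 : clampN z = 2 := by simp [clampN, hz]
  have h2 : clampN (0 : E d) = 1 := by simp [clampN]
  rw [h1, h2]
  norm_num

lemma exists_norm_lower (hd : 1 ≤ d) (hN0 : ∀ x, N x = 0 → x = 0) :
    ∃ m : ℝ, 0 < m ∧ ∀ x, m * ‖x‖ ≤ N x := by
  -- continuity of the norm `N`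
  have hbound : ∃ C : ℝ, ∀ x : E d, N x ≤ C * ‖x‖ := by
    refine ⟨∑ i : Fin d, N (EuclideanSpace.single i 1), fun x => ?_⟩
    have hx : x = ∑ i : Fin d, x i • EuclideanSpace.single i (1 : ℝ) := by
      ext j
      simp [Finset.sum_apply, Pi.single_apply]
    calc N x = N (∑ i : Fin d, x i • EuclideanSpace.single i (1 : ℝ)) := by rw [← hx]
      _ ≤ ∑ i : Fin d, N (x i • EuclideanSpace.single i (1 : ℝ)) :=
          Finset.le_sum_of_subadditive N (map_zero N).le (map_add_le_add N) _ _
      _ = ∑ i : Fin d, |x i| * N (EuclideanSpace.single i (1 : ℝ)) := by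
          refine Finset.sum_congr rfl fun i _ => ?_
          rw [map_smul_eq_mul, Real.norm_eq_abs]
      _ ≤ ∑ i : Fin d, ‖x‖ * N (EuclideanSpace.single i (1 : ℝ)) := by
          refine Finset.sum_le_sum fun i _ => ?_
          gcongr
          have := EuclideanSpace.norm_eq x
          rw [this]
          apply Real.le_sqrt_of_sq_le
          rw [sq_abs]
          have := Finset.single_le_sum (f := fun j => ‖x j‖ ^ 2) (fun j _ => by positivity)
            (Finset.mem_univ i)
          simpa using this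
      _ = _ := by rw [← Finset.mul_sum, mul_comm]
  obtain ⟨C, hC⟩ := hbound
  have hcont : Continuous (fun x => N x) := by
    have hC0 : ∀ x y : E d, |N x - N y| ≤ C * ‖x - y‖ := by
      intro x y
      rw [abs_le]
      constructor
      · have h3 : N y ≤ N x + N (y - x) := by
          calc N y = N (x + (y - x)) := by congr 1; abel
            _ ≤ _ := map_add_le_add N _ _
        have h4 := hC (y - x)
        rw [norm_sub_rev] at h4
        linarith
      · have h3 : N x ≤ N y + N (x - y) := by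
          calc N x = N (y + (x - y)) := by congr 1; abel
            _ ≤ _ := map_add_le_add N _ _
        have h4 := hC (x - y)
        linarith
    have hL : LipschitzWith C.toNNReal (fun x => N x) := by
      refine LipschitzWith.of_dist_le_mul fun x y => ?_
      rw [Real.dist_eq, dist_eq_norm]
      refine (hC0 x y).trans ?_
      gcongr
      exact Real.le_coe_toNNReal C
    exact hL.continuous
  have hne : (Metric.sphere (0 : E d) 1).Nonempty := by
    refine ⟨EuclideanSpace.single ⟨0, hd⟩ 1, ?_⟩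
    simp
  obtain ⟨u, hu, hmin⟩ := (isCompact_sphere (0 : E d) 1).exists_isMinOn hne hcont.continuousOn
  have hu1 : ‖u‖ = 1 := by simpa using hu
  have hu0 : u ≠ 0 := by intro h; rw [h] at hu1; simp at hu1
  have hpos : 0 < N u := lt_of_le_of_ne (apply_nonneg N u) (fun h => hu0 (hN0 u h.symm))
  refine ⟨N u, hpos, fun x => ?_⟩
  by_cases hx : x = 0
  · subst hx; simp
  · have hx0 : 0 < ‖x‖ := norm_pos_iff.2 hx
    have hsph : ‖x‖⁻¹ • x ∈ Metric.sphere (0 : E d) 1 := by
      rw [mem_sphere_zero_iff_norm, norm_smul, norm_inv, norm_norm, inv_mul_cancel₀ hx0.ne']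
    have h1 : N u ≤ N (‖x‖⁻¹ • x) := hmin hsph
    rw [map_smul_eq_mul, norm_inv, norm_norm] at h1
    calc N u * ‖x‖ ≤ (‖x‖⁻¹ * N x) * ‖x‖ := by gcongr
      _ = N x := by field_simp

/-- A point separating two dilates of the shape. -/
lemma exists_separating (hd : 1 ≤ d) (hα : α < 1) (hN0 : ∀ x, N x = 0 → x = 0)
    (hlip : ∃ K, LipschitzOnWith K f₀ (Metric.sphere 0 1))
    (hpos : ∀ z ∈ Metric.sphere (0 : E d) 1, 0 < f₀ z) {r s : ℝ} (hs : 0 < s) (hrs : s < r) :
    ∃ z : E d, z ∈ r • shapeB N (wfun α f₀) ∧ z ∉ s • shapeB N (wfun α f₀) := by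
  obtain ⟨m, hm, hN⟩ := exists_norm_lower N hd hN0
  obtain ⟨K, hK⟩ := hlip
  obtain ⟨M, hM⟩ := (isCompact_sphere (0 : E d) 1).bddAbove_image hK.continuousOn
  have hf : ∀ z ∈ Metric.sphere (0 : E d) 1, f₀ z ≤ max M 1 := fun z hz =>
    (hM (mem_image_of_mem _ hz)).trans (le_max_left _ _)
  have hM1 : 0 < max M 1 := lt_max_of_lt_right one_pos
  set z₀ : E d := (2 : ℝ) • EuclideanSpace.single ⟨0, hd⟩ (1 : ℝ) with hz₀
  have hz₀n : ‖z₀‖ = 2 := by rw [hz₀, norm_smul]; simp
  have hD0 := Dmet_pos N (α := α) hm hM1 hN hpos hf z₀ hz₀n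
  have hD1 := Dmet_lt_top N (α := α) (f₀ := f₀) hα z₀
  set D₀ : ℝ := (Dmet N (wfun α f₀) 0 z₀).toReal with hD₀
  have hD₀pos : 0 < D₀ := ENNReal.toReal_pos hD0.ne' hD1.ne
  have hDeq : Dmet N (wfun α f₀) 0 z₀ = ENNReal.ofReal D₀ := (ENNReal.ofReal_toReal hD1.ne).symm
  have hr : 0 < r := hs.trans hrs
  have h1α : 0 < 1 - α := by linarith
  -- the scaling constant
  set c : ℝ := r * D₀ ^ (-(1 / (1 - α))) with hc
  have hc0 : 0 < c := by positivity
  have hcpow : c ^ (1 - α) = r ^ (1 - α) * D₀⁻¹ := by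
    rw [hc, Real.mul_rpow hr.le (by positivity), ← Real.rpow_mul hD₀pos.le]
    congr 1
    rw [show -(1 / (1 - α)) * (1 - α) = -1 by field_simp, Real.rpow_neg_one]
  have hDz : ∀ a : ℝ, 0 < a → Dmet N (wfun α f₀) 0 (a⁻¹ • (c • z₀)) =
      ENNReal.ofReal ((r / a) ^ (1 - α)) := by
    intro a ha
    rw [smul_smul, Dmet_smul N (by positivity), hDeq, ← ENNReal.ofReal_mul (by positivity)]
    congr 1
    rw [Real.mul_rpow (by positivity) hc0.le, hcpow, Real.div_rpow hr.le ha.le,
      Real.inv_rpow ha.le]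
    field_simp
  refine ⟨c • z₀, ?_, ?_⟩
  · rw [mem_smul_set_iff_inv_smul_mem₀ hr.ne']
    show Dmet N (wfun α f₀) 0 (r⁻¹ • (c • z₀)) ≤ 1
    rw [hDz r hr, div_self hr.ne', Real.one_rpow, ENNReal.ofReal_one]
  · rw [mem_smul_set_iff_inv_smul_mem₀ hs.ne']
    show ¬ (Dmet N (wfun α f₀) 0 (s⁻¹ • (c • z₀)) ≤ 1)
    rw [hDz s hs, not_le]
    have : 1 < (r / s) ^ (1 - α) := Real.one_lt_rpow (by rwa [one_lt_div hs]) h1α
    rw [← ENNReal.ofReal_one]
    exact (ENNReal.ofReal_lt_ofReal_iff (by positivity)).2 this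

end geometry

/-! ### The numerical inequality -/

lemma eventually_radii {p χ : ℝ} (hp : 0 < p) (hχ : 1 < χ) :
    ∀ᶠ t : ℝ in atTop, 0 < (1 + t ^ (-χ)) * t ^ p ∧
      (1 + t ^ (-χ)) * t ^ p < (1 - (t + 1) ^ (-χ)) * (t + 1) ^ p := by
  have h1 : Tendsto (fun t : ℝ => t ^ (-(χ - 1))) atTop (𝓝 0) :=
    tendsto_rpow_neg_atTop (by linarith)
  have h2 : ∀ᶠ t : ℝ in atTop, t ^ (-(χ - 1)) < p / (2 * (2 + p)) :=
    h1.eventually_lt_const (by positivity)
  filter_upwards [h2, eventually_ge_atTop (1 : ℝ)] with t ht ht1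
  have ht0 : 0 < t := by linarith
  have htχ : 0 < t ^ (-χ) := Real.rpow_pos_of_pos ht0 _
  have htp : 0 < t ^ p := Real.rpow_pos_of_pos ht0 _
  refine ⟨by positivity, ?_⟩
  -- lower bound for `(t+1)^p`
  have hA : t ^ p * (1 + p / (t + 1)) ≤ (t + 1) ^ p := by
    have h3 : (t + 1) ^ p = t ^ p * (1 + 1 / t) ^ p := by
      rw [← Real.mul_rpow ht0.le (by positivity)]
      congr 1; field_simp
    rw [h3]
    gcongr
    have h4 : 1 / (t + 1) ≤ Real.log (1 + 1 / t) := by
      have := Real.one_sub_inv_le_log_of_pos (x := 1 + 1 / t) (by positivity)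
      have h5 : 1 - (1 + 1 / t)⁻¹ = 1 / (t + 1) := by field_simp; ring
      rwa [h5] at this
    rw [Real.rpow_def_of_pos (by positivity)]
    calc 1 + p / (t + 1) ≤ Real.exp (p / (t + 1)) := by
          rw [add_comm]; exact Real.add_one_le_exp _
      _ ≤ Real.exp (Real.log (1 + 1 / t) * p) := by
          apply Real.exp_le_exp.2
          have := mul_le_mul_of_nonneg_right h4 hp.le
          calc p / (t + 1) = 1 / (t + 1) * p := by ring
            _ ≤ _ := this
  -- comparison of the error terms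
  have hB : (t + 1) ^ (-χ) ≤ t ^ (-χ) :=
    Real.rpow_le_rpow_of_nonpos ht0 (by linarith) (by linarith)
  have hB0 : 0 < (t + 1) ^ (-χ) := Real.rpow_pos_of_pos (by linarith) _
  have hB1 : (t + 1) ^ (-χ) < 1 :=
    Real.rpow_lt_one_of_one_lt_of_neg (by linarith) (by linarith)
  have hC : t ^ (-χ) * (2 + p) < p / (2 * t) := by
    have h6 : t ^ (-χ) = t ^ (-(χ - 1)) * t⁻¹ := by
      rw [← Real.rpow_neg_one t, ← Real.rpow_add ht0]
      congr 1; ring
    rw [h6]
    calc t ^ (-(χ - 1)) * t⁻¹ * (2 + p) < p / (2 * (2 + p)) * t⁻¹ * (2 + p) := by gcongr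
      _ = p / (2 * t) := by field_simp
  have hD : p / (2 * t) ≤ p / (t + 1) := by
    gcongr
    linarith
  have hE : 1 + t ^ (-χ) < (1 - (t + 1) ^ (-χ)) * (1 + p / (t + 1)) := by
    have h7 : p / (t + 1) ≤ p := div_le_self hp.le (by linarith)
    have h8 : (t + 1) ^ (-χ) * (1 + p / (t + 1)) ≤ t ^ (-χ) * (1 + p) := by
      gcongr
    have h9 : (1 - (t + 1) ^ (-χ)) * (1 + p / (t + 1)) =
        1 + p / (t + 1) - (t + 1) ^ (-χ) * (1 + p / (t + 1)) := by ring
    rw [h9]
    nlinarith
  calc (1 + t ^ (-χ)) * t ^ p < ((1 - (t + 1) ^ (-χ)) * (1 + p / (t + 1))) * t ^ p := by gcongr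
    _ = (1 - (t + 1) ^ (-χ)) * (t ^ p * (1 + p / (t + 1))) := by ring
    _ ≤ _ := by
        gcongr

/-! ### Positivity of the rates -/

lemma mid_ne_zero {d : ℕ} (e : (latticeGraph d).edgeSet) : mid e.1 ≠ 0 := by
  obtain ⟨e, he⟩ := e
  induction e using Sym2.ind with
  | _ x y =>
    intro h0
    have hadj : ∑ i, |x i - y i| = 1 := he
    have h1 : ∀ i, x i = - y i := by
      intro i
      have h2 : (1 / 2 : ℝ) • (toE x + toE y) = 0 := h0
      have h3 := congrArg (fun z : E d => z i) h2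
      simp only [toE, PiLp.smul_apply, PiLp.add_apply, smul_eq_mul, PiLp.zero_apply] at h3
      have h4 : (x i : ℝ) + (y i : ℝ) = 0 := by linarith
      have h5 : x i + y i = 0 := by exact_mod_cast h4
      linarith
    have h2 : ∑ i, |x i - y i| = 2 * ∑ i, |y i| := by
      rw [Finset.mul_sum]
      refine Finset.sum_congr rfl fun i _ => ?_
      rw [h1 i, show -y i - y i = -(2 * y i) by ring, abs_neg, abs_mul]
      norm_num
    omega

lemma rate_pos {d : ℕ} {α : ℝ} {f₀ : E d → ℝ}
    (hpos : ∀ z ∈ Metric.sphere (0 : E d) 1, 0 < f₀ z) (e : (latticeGraph d).edgeSet) :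
    0 < wfun α f₀ (mid e.1) := by
  have h0 := mid_ne_zero e
  have hn : 0 < ‖mid e.1‖ := norm_pos_iff.2 h0
  unfold wfun
  have hsph : ‖mid e.1‖⁻¹ • mid e.1 ∈ Metric.sphere (0 : E d) 1 := by
    rw [mem_sphere_zero_iff_norm, norm_smul, norm_inv, norm_norm, inv_mul_cancel₀ hn.ne']
  have := hpos _ hsph
  positivity

lemma expMeasure_neg {r : ℝ} : expMeasure r (Iio 0) = 0 := by
  have hexp : expMeasure r = volume.withDensity (exponentialPDF r) := rfl
  rw [hexp, withDensity_apply _ measurableSet_Iio]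
  exact lintegral_exponentialPDF_of_nonpos le_rfl

/-- Sanity check: models exist (so that the theorems below are not vacuous). -/
theorem exists_model (d : ℕ) (α : ℝ) (f₀ : E d → ℝ)
    (hpos : ∀ z ∈ Metric.sphere (0 : E d) 1, 0 < f₀ z) :
    ∃ (Ω : Type) (_ : MeasurableSpace Ω) (P : Measure Ω) (_ : IsProbabilityMeasure P)
      (X : (latticeGraph d).edgeSet → Ω → ℝ), IsModel P α f₀ X := by
  have : ∀ e : (latticeGraph d).edgeSet, IsProbabilityMeasure (expMeasure (wfun α f₀ (mid e.1))) :=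
    fun e => isProbabilityMeasure_expMeasure (rate_pos hpos e)
  refine ⟨(latticeGraph d).edgeSet → ℝ, inferInstance,
    Measure.infinitePi (fun e : (latticeGraph d).edgeSet => expMeasure (wfun α f₀ (mid e.1))),
    inferInstance, fun e x => x e, fun e => measurable_pi_apply e, ?_, fun e => ?_⟩
  · exact iIndepFun_infinitePi (fun _ => measurable_id)
  · exact Measure.infinitePi_map_eval _ e

/-! ### The main theorem -/

/-- The failure probability stays bounded away from zero. -/
theorem failure_bound {d : ℕ} (hd : 1 ≤ d) {α : ℝ} (hα : α < 1) (f₀ : E d → ℝ)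
    (hlip : ∃ K, LipschitzOnWith K f₀ (Metric.sphere 0 1))
    (hpos : ∀ z ∈ Metric.sphere (0 : E d) 1, 0 < f₀ z)
    (N : Seminorm ℝ (E d)) (hN : ∀ x, N x = 0 → x = 0)
    {Ω : Type*} [MeasurableSpace Ω] (P : Measure Ω) [IsProbabilityMeasure P]
    (X : (latticeGraph d).edgeSet → Ω → ℝ) (hX : IsModel P α f₀ X) {χ : ℝ} (hχ : 1 < χ) :
    ∃ δ : ℝ, 0 < δ ∧ ∀ᶠ t₀ : ℝ in atTop, δ ≤ 1 - P.real (goodEvent N α f₀ X χ t₀) := by
  classical
  obtain ⟨hmeas, hind, hlaw⟩ := hX
  set r : (latticeGraph d).edgeSet → ℝ := fun e => wfun α f₀ (mid e.1) with hr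
  have hr0 : ∀ e, 0 < r e := fun e => rate_pos hpos e
  set ν : (latticeGraph d).edgeSet → Measure ℝ := fun e => expMeasure (r e) with hν
  have : ∀ e, IsProbabilityMeasure (ν e) := fun e => isProbabilityMeasure_expMeasure (hr0 e)
  set Q := Measure.infinitePi ν with hQ
  have hmX : Measurable (fun ω e => X e ω) := measurable_pi_lambda _ hmeas
  have hmap : P.map (fun ω e => X e ω) = Q := by
    have := (iIndepFun_iff_map_fun_eq_infinitePi_map hmeas).1 hind
    rw [this, hQ]
    congr 1
    funext e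
    exact hlaw e
  -- almost sure nonnegativity
  have hnn : ∀ᵐ x ∂Q, ∀ e, 0 ≤ x e := by
    rw [ae_all_iff]
    intro e
    have h1 : Q.map (fun x => x e) = ν e := Measure.infinitePi_map_eval ν e
    have h2 : Q {x | ¬ 0 ≤ x e} = 0 := by
      have h3 : {x : (latticeGraph d).edgeSet → ℝ | ¬ 0 ≤ x e} = (fun x => x e) ⁻¹' (Iio 0) := by
        ext x; simp
      rw [h3, ← Measure.map_apply (measurable_pi_apply e) measurableSet_Iio, h1]
      exact expMeasure_neg
    exact h2
  set F : Finset (latticeGraph d).edgeSet := (finite_originEdges (d := d)).toFinset with hF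
  have hFmem : ∀ e, e ∈ F ↔ e ∈ originEdges d := fun e => by rw [hF, Set.Finite.mem_toFinset]
  set C : ℝ≥0∞ := ∏ i ∈ F, ENNReal.ofReal (Real.exp (r i)) with hC
  have hCtop : C ≠ ⊤ := ENNReal.prod_ne_top fun i _ => ENNReal.ofReal_ne_top
  have hshift := Pool.Agent.H96.infinitePi_shift_finset ν hr0 (fun _ => rfl) F
  -- comparison of the two events
  have key : ∀ (z : E d) (t : ℝ), 0 ≤ t →
      Q {x | z ∈ cluster x t}ᶜ ≤ C * Q {x | z ∈ cluster x (t + 1)}ᶜ := by
    intro z t ht
    have hm1 := (measurableSet_mem_cluster z (t + 1)).compl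
    calc Q {x | z ∈ cluster x t}ᶜ
        ≤ Q ((Pool.Agent.H96.shiftF F) ⁻¹' {x | z ∈ cluster x (t + 1)}ᶜ) := by
          apply measure_mono_ae
          filter_upwards [hnn] with x hx hxt
          intro hcon
          exact hxt (cluster_shift F hFmem x hx ht hcon)
      _ = (Q.map (Pool.Agent.H96.shiftF F)) {x | z ∈ cluster x (t + 1)}ᶜ := by
          rw [Measure.map_apply (Pool.Agent.H96.measurable_shiftF F) hm1]
      _ ≤ (C • Q) {x | z ∈ cluster x (t + 1)}ᶜ := hshift _
      _ = _ := by rw [Measure.smul_apply, smul_eq_mul]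
  set c : ℝ := C.toReal with hc
  have hc0 : 0 ≤ c := ENNReal.toReal_nonneg
  refine ⟨1 / (1 + c), by positivity, ?_⟩
  have hp : 0 < 1 / (1 - α) := by
    have : 0 < 1 - α := by linarith
    positivity
  filter_upwards [eventually_radii hp hχ, eventually_ge_atTop (0 : ℝ)] with t₀ ht ht0
  obtain ⟨z, hz1, hz2⟩ := exists_separating N hd hα hN hlip hpos ht.1 ht.2
  set G : Set Ω := goodEvent N α f₀ X χ t₀ with hG
  have hG1 : G ⊆ (fun ω e => X e ω) ⁻¹' {x | z ∈ cluster x t₀}ᶜ := by
    intro ω hω hcon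
    exact hz2 ((hω t₀ le_rfl).2 hcon)
  have hG2 : G ⊆ (fun ω e => X e ω) ⁻¹' {x | z ∈ cluster x (t₀ + 1)} := by
    intro ω hω
    exact (hω (t₀ + 1) (by linarith)).1 hz1
  have hm0 := measurableSet_mem_cluster z t₀
  have hm1 := measurableSet_mem_cluster z (t₀ + 1)
  have hP1 : P G ≤ Q {x | z ∈ cluster x t₀}ᶜ := by
    rw [← hmap, Measure.map_apply hmX hm0.compl]
    exact measure_mono hG1
  have hP2 : P G ≤ Q {x | z ∈ cluster x (t₀ + 1)} := by
    rw [← hmap, Measure.map_apply hmX hm1]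
    exact measure_mono hG2
  set b : ℝ := Q.real {x | z ∈ cluster x (t₀ + 1)}ᶜ with hb
  have hPr1 : P.real G ≤ c * b := by
    have h1 : P G ≤ C * Q {x | z ∈ cluster x (t₀ + 1)}ᶜ := hP1.trans (key z t₀ ht0)
    have h2 := ENNReal.toReal_mono (ENNReal.mul_ne_top hCtop (measure_ne_top _ _)) h1
    rw [ENNReal.toReal_mul] at h2
    exact h2
  have hPr2 : P.real G ≤ 1 - b := by
    have h1 : Q.real {x | z ∈ cluster x (t₀ + 1)} = 1 - b := by
      rw [hb, probReal_compl_eq_one_sub hm1]; ring
    rw [← h1]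
    exact ENNReal.toReal_mono (measure_ne_top _ _) hP2
  rw [div_le_iff₀ (by positivity)]
  nlinarith

end Pool.Agent.H96.WFPP
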